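import Pool.Agent.Helper49.MEI.Cpl2
import Pool.Agent.Helper41.MEI.Exs2

/-!
# Project MEI (M2), TEAM TC: coupling of a pair with a general profile

`dp φ a z = φ(x_p)/(4 D)`, `φ ≥ 0` on `[-1/2, 1/2]` (helper22: `φ = (15/16)(1 - 4 x²)`).
`te_pairp`: with `κ = m/M`, `m` = the four numbers of the other cell, the sum of the two excess
integrals is at least minus the four signed levels of `wt - κ φ/(8 D)`, plus the height term.
-/

set_option autoImplicit false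

namespace Helper49.Cpl

open Set Metric MeasureTheory Helper80.CW Helper14.CW Helper14.MEI2
open Helper93.MEI Helper37.MEI Helper41.MEI Helper78.MEI
open Helper22.Sgn (gL TE_sgn)
open Pool.Agent.Helper8.MEI (DD DD_pos DD_ge)
open Pool.Agent.Helper73.MEI (PM TE TE_exc pf pr pr_apply pf_bij)
open Pool.Agent.Helper95.MEI.Fub (Zp exc exc_cont eX_cont eY_cont eW_cont Qv_cont pp_cont
  DDe_cont int_cont Zp_meas mir mir_gram mir_eX mir_eY mir_eW mir_eV mir_Zp mir_perm)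
open scoped RealInnerProductSpace Real

section defs
variable (φ : ℝ → ℝ) (σ : Measure (E3 × E3)) (a : Fin 4 → E3)

/-- density `φ(x_p)/(4 D)` -/
noncomputable def dp (z : E3 × E3) : ℝ := φ (eX a z.1) * rh a z

/-- mass, moment towards the opposite edge, height moment, levels -/
noncomputable def p0 : ℝ := ∫ z in Zp a 2 3, dp φ a z ∂σ
noncomputable def pY : ℝ := ∫ z in Zp a 2 3, dp φ a z * eY a z.2 ∂σ
noncomputable def pH : ℝ := ∫ z in Zp a 2 3, dp φ a z * eV a z.2 ∂σ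
noncomputable def pQ (i : Fin 4) : ℝ := ∫ z in Zp a 2 3, dp φ a z * Qv a i z.2 ∂σ

/-- the four numbers of a pair: mass times (1/2 + coordinate towards the vertex), other cell -/
noncomputable def mp (m : Fin 3) (e i : Bool) : ℝ :=
  p0 φ σ (ap a m (!e)) / 2 + (if i then -pY φ σ (ap a m (!e)) else pY φ σ (ap a m (!e)))

/-- the signed level of the reduced density -/
noncomputable def gP (κ : ℝ) (m : Fin 3) (e i : Bool) : ℝ :=
  ∫ z in EE a m e, (wt (ap a m e) i z.1 - κ / 2 * dp φ (ap a m e) z) * Qv a (vx m e i) z.2 ∂σ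

end defs

section dens
variable {φ : ℝ → ℝ} {a : Fin 4 → E3} {K : Set E3} {σ : Measure (E3 × E3)}

theorem dp_cont (hφ : Continuous φ) (a : Fin 4 → E3) : Continuous (dp φ a) := by
  unfold dp
  exact (hφ.comp ((eX_cont a).comp continuous_fst)).mul (rh_cont a)

theorem dp_nonneg (h0 : ∀ x, |x| ≤ 1 / 2 → 0 ≤ φ x) (h : Gram4 (al a)) {z : E3 × E3}
    (hz : Pl a z.1) : 0 ≤ dp φ a z := by
  obtain ⟨_, h1, _⟩ := pl_e h hz
  exact mul_nonneg (h0 _ h1) (rh_pos a z).le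

/-- bounded on `K` -/
theorem dp_bdd (hφ : Continuous φ) (hK : IsCompact K) (hσ : ∀ᵐ z ∂σ, z.1 ∈ K ∧ z.2 ∈ K)
    (a : Fin 4 → E3) : ∃ C, ∀ᵐ z ∂σ, |dp φ a z| ≤ C := by
  obtain ⟨C, hC⟩ := (hK.prod hK).exists_bound_of_continuousOn (dp_cont hφ a).continuousOn
  refine ⟨C, ?_⟩
  filter_upwards [hσ] with z hz
  exact hC z ⟨hz.1, hz.2⟩

/-- **the product inequality** for two profiles -/
theorem cplp [IsFiniteMeasure σ] {ψ : ℝ → ℝ} (hφ : Continuous φ) (hψ : Continuous ψ)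
    (h0 : ∀ x, |x| ≤ 1 / 2 → 0 ≤ φ x) (h0' : ∀ x, |x| ≤ 1 / 2 → 0 ≤ ψ x)
    (h : Gram4 (al a)) (hK : IsCompact K)
    (hd : ∀ x ∈ K, ∀ y ∈ K, ‖x - y‖ ≤ 1) (hp : ∀ x ∈ K, Pl a x)
    (hσ : ∀ᵐ z ∂σ, z.1 ∈ K ∧ z.2 ∈ K) :
    (p0 ψ σ (mir a) / 2 + pY ψ σ (mir a)) * pQ φ σ a 0 +
      (p0 ψ σ (mir a) / 2 - pY ψ σ (mir a)) * pQ φ σ a 1 +
      (p0 φ σ a / 2 + pY φ σ a) * pQ ψ σ (mir a) 0 +
      (p0 φ σ a / 2 - pY φ σ a) * pQ ψ σ (mir a) 1 +
      2 * (pH φ σ a * pH ψ σ (mir a)) ≤ 0 := by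
  have hg := mir_gram h
  obtain ⟨C1, n1⟩ := dp_bdd hφ hK hσ a
  obtain ⟨C2, n2⟩ := dp_bdd hψ hK hσ (mir a)
  have k1 : ∀ᵐ z ∂σ, 0 ≤ dp φ a z := by
    filter_upwards [hσ] with z hz
    exact dp_nonneg h0 h (hp _ hz.1)
  have k2 : ∀ᵐ z ∂σ, 0 ≤ dp ψ (mir a) z := by
    filter_upwards [hσ] with z hz
    exact dp_nonneg h0' hg (Pool.Agent.Helper95.MEI.Fub.mir_Pl (hp _ hz.1))
  have key := cpl_ab (A := Zp a 2 3) (B := Zp (mir a) 2 3) (C := max C1 C2) h hK hd hσ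
    (dp_cont hφ a).aestronglyMeasurable (dp_cont hψ (mir a)).aestronglyMeasurable
    (n1.mono fun z hz => hz.trans (le_max_left _ _))
    (n2.mono fun z hz => hz.trans (le_max_right _ _))
    (ae_restrict_of_ae k1) (ae_restrict_of_ae k2)
  have e1 : pY ψ σ (mir a) = ∫ z in Zp (mir a) 2 3, dp ψ (mir a) z * eX a z.2 ∂σ := by
    unfold pY
    congr 1
    funext z
    rw [mir_eY]
  have e2 : pH ψ σ (mir a) = ∫ z in Zp (mir a) 2 3, dp ψ (mir a) z * eW a z.2 ∂σ := by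
    unfold pH
    congr 1
    funext z
    rw [mir_eV]
  rw [e1, e2]
  exact key

end dens

section pair
variable {φ : ℝ → ℝ} {a : Fin 4 → E3} {K : Set E3} {σ : Measure (E3 × E3)} [IsFiniteMeasure σ]

/-- `gP = gL - κ pQ/2` -/
theorem gP_eq (hφ : Continuous φ) (hK : IsCompact K) (hσ : ∀ᵐ z ∂σ, z.1 ∈ K ∧ z.2 ∈ K) (κ : ℝ)
    (m : Fin 3) (e i : Bool) : gP φ σ a κ m e i = gL σ a m e i -
      κ / 2 * pQ φ σ (ap a m e) (if i then 1 else 0) := by
  have hQ : Qv (ap a m e) (if i then 1 else 0) = Qv a (vx m e i) := by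
    cases i
    · exact (Qv_ap a m e).1
    · exact (Qv_ap a m e).2
  have c1 : Continuous fun z : E3 × E3 => wt (ap a m e) i z.1 * Qv a (vx m e i) z.2 :=
    ((wt_cont (ap a m e) i).comp continuous_fst).mul ((Qv_cont a (vx m e i)).comp continuous_snd)
  have c2 : Continuous fun z : E3 × E3 => κ / 2 * (dp φ (ap a m e) z * Qv a (vx m e i) z.2) :=
    continuous_const.mul ((dp_cont hφ (ap a m e)).mul
      ((Qv_cont a (vx m e i)).comp continuous_snd))
  unfold gP gL pQ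
  rw [hQ, ← integral_const_mul]
  have hE : EE a m e = Zp (ap a m e) 2 3 := rfl
  rw [← hE, ← integral_sub (int_cont hK hσ c1).integrableOn (int_cont hK hσ c2).integrableOn]
  congr 1
  funext z
  ring

/-- **the pair of opposite edges with a general profile** -/
theorem te_pairp (hφ : Continuous φ) (h0 : ∀ x, |x| ≤ 1 / 2 → 0 ≤ φ x)
    (hP : PM K σ) (ha : ∀ i j, i ≠ j → dist (a i) (a j) = 1)
    (hd : ∀ x ∈ K, ∀ y ∈ K, ‖x - y‖ ≤ 1) (hp : ∀ x ∈ K, Pl a x) (m : Fin 3)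
    {B : Bool → OrthonormalBasis (Fin 3) ℝ E3} (hB : ∀ e, Fr (ap a m e) (B e)) {M : ℝ}
    (hM : 0 < M) :
    -(∑ e, ∑ i, gP φ σ a (mp φ σ a m e i / M) m e i) +
      pH φ σ (ap a m false) * pH φ σ (ap a m true) / M ≤
    TE (B false) (cen a) σ + TE (B true) (cen a) σ := by
  have hg : Gram4 (al (ap a m false)) := gram_of_dist (hap ha m false)
  have hpl : ∀ x ∈ K, Pl (ap a m false) x := fun x hx => Pl_perm (pr m false) (hp x hx)
  have key := cplp hφ hφ h0 h0 hg hP.cpt hd hpl hP.mem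
  rw [← ap_mir a m] at key
  rw [TE_sgn hP ha m false (hB false), TE_sgn hP ha m true (hB true)]
  simp only [Fintype.sum_bool]
  rw [gP_eq hφ hP.cpt hP.mem, gP_eq hφ hP.cpt hP.mem, gP_eq hφ hP.cpt hP.mem,
    gP_eq hφ hP.cpt hP.mem]
  unfold mp
  simp only [Bool.not_false, Bool.not_true, if_true, Bool.false_eq_true, if_false]
  set A0 := p0 φ σ (ap a m false)
  set AY := pY φ σ (ap a m false)
  set B0 := p0 φ σ (ap a m true)
  set BY := pY φ σ (ap a m true)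
  set HA := pH φ σ (ap a m false)
  set HB := pH φ σ (ap a m true)
  set q0 := pQ φ σ (ap a m false) 0
  set q1 := pQ φ σ (ap a m false) 1
  set q2 := pQ φ σ (ap a m true) 0
  set q3 := pQ φ σ (ap a m true) 1
  have e : (B0 / 2 + BY) / M / 2 * q0 + (B0 / 2 + -BY) / M / 2 * q1 +
      ((A0 / 2 + AY) / M / 2 * q2 + (A0 / 2 + -AY) / M / 2 * q3) + HA * HB / M =
      ((B0 / 2 + BY) * q0 + (B0 / 2 - BY) * q1 + (A0 / 2 + AY) * q2 + (A0 / 2 - AY) * q3 +
        2 * (HA * HB)) / M / 2 := by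
    field_simp
    ring
  have k : ((B0 / 2 + BY) * q0 + (B0 / 2 - BY) * q1 + (A0 / 2 + AY) * q2 + (A0 / 2 - AY) * q3 +
        2 * (HA * HB)) / M / 2 ≤ 0 := by
    apply div_nonpos_of_nonpos_of_nonneg _ (by norm_num)
    exact div_nonpos_of_nonpos_of_nonneg key hM.le
  rw [← e] at k
  linarith

end pair

/-! ### helper22's profile -/

/-- `(15/16)(1 - 4 x²)` -/
noncomputable def ph22 (x : ℝ) : ℝ := 15 / 16 * (1 - 4 * x ^ 2)

theorem ph22_cont : Continuous ph22 := by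
  unfold ph22
  fun_prop

theorem ph22_nonneg (x : ℝ) (hx : |x| ≤ 1 / 2) : 0 ≤ ph22 x := by
  have h := abs_le.1 hx
  unfold ph22
  nlinarith

/-- `φ/2 ≤` both weights, for all real `x` -/
theorem ph22_le (x : ℝ) : ph22 x / 2 ≤ 1 / 2 + 7 * x / 16 ∧ ph22 x / 2 ≤ 1 / 2 - 7 * x / 16 := by
  unfold ph22
  constructor
  · nlinarith [sq_nonneg (60 * x + 7)]
  · nlinarith [sq_nonneg (60 * x - 7)]

/-- the reduced weight in helper22's form -/
theorem wt_ph22 (a : Fin 4 → E3) (κ : ℝ) (i : Bool) (z : E3 × E3) :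
    wt a i z.1 - κ / 2 * dp ph22 a z =
      (wn a i z.1 - κ * (15 / 32 * (1 - 4 * eX a z.1 ^ 2))) /
        (4 * DD (eX a z.1) (eY a z.1) (eW a z.1)) := by
  unfold wt wn dp rh ph22
  rw [sub_div]
  have e : ∀ y w : ℝ, κ / 2 * (15 / 16 * y * w⁻¹) = κ * (15 / 32 * y) / w := by
    intro y w
    rw [div_eq_mul_inv (κ * (15 / 32 * y))]
    ring
  rw [e]

end Helper49.Cpl
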