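import Pool.Agent.Helper99.MEI.WT4
import Pool.Agent.Helper14.MEI4.ZH
import Pool.Agent.Helper31.SR.IntC

/-!
# Project MEI (M2), track B: the vertex rows of a family of tables

The members of a family are `e = (r, b) : Fin 8 × Bool` (corner `r` of the box of the leaks, bit
`b` of the deficit of the apex), the rows of a member are the vertices of the violations. `vrck` =
check of the numbers of the rows; `vr_hst` = the state of the corner is at most the mean of the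
rows (premise of `loads_fam`), `vr_rowB` = the row bounds of every member (premise of rule R9).
-/

set_option autoImplicit false

namespace Helper49.VR

open Finset Helper99.MEI Helper14.MEI4 Helper60.R8
open Helper60.R7 (jj ll)
open Pool.Agent.Helper55.Apex (nc)
open Helper29.MEI (bw8 bw8_one bw8_sum)

/-! ### Affine functions of the leaks -/

/-- an affine function of the leaks, `c0 + p.n - m.n`, units `10⁻⁶` -/
structure GA where
  c0 : ℕ
  p : Fin 3 → ℕ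
  m : Fin 3 → ℕ

/-- its value -/
noncomputable def GA.ev (G : GA) (n : Fin 3 → ℝ) : ℝ :=
  qq G.c0 + (qq (G.p 0) * n 0 + qq (G.p 1) * n 1 + qq (G.p 2) * n 2)
    - (qq (G.m 0) * n 0 + qq (G.m 1) * n 1 + qq (G.m 2) * n 2)

/-- the positive part at the corner `r`, units `10⁻¹²` -/
def GA.pos (G : GA) (tt : Fin 3 → ℕ) (r : ℕ) : ℕ :=
  G.c0 * 1000000 + (G.p 0 * vxk tt 0 r + G.p 1 * vxk tt 1 r + G.p 2 * vxk tt 2 r)

/-- the negative part at the corner `r`, units `10⁻¹²` -/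
def GA.neg (G : GA) (tt : Fin 3 → ℕ) (r : ℕ) : ℕ :=
  G.m 0 * vxk tt 0 r + G.m 1 * vxk tt 1 r + G.m 2 * vxk tt 2 r

/-- the corner `r` of the box -/
noncomputable def vx (tt : Fin 3 → ℕ) (r : ℕ) : Fin 3 → ℝ := fun k => qq (vxk tt k r)

theorem GA.ev_vx (G : GA) (tt : Fin 3 → ℕ) (r : ℕ) :
    G.ev (vx tt r) = ((G.pos tt r : ℝ) - (G.neg tt r : ℝ)) / 1000000000000 := by
  unfold GA.ev GA.pos GA.neg vx qq
  push_cast
  ring

/-- nonnegative at the corner `r` -/
def GA.nnk (G : GA) (tt : Fin 3 → ℕ) (r : ℕ) : Bool := Nat.ble (G.neg tt r) (G.pos tt r)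

/-- `u * G(corner r) ≤ w` -/
def GA.ck (G : GA) (tt : Fin 3 → ℕ) (r u w : ℕ) : Bool :=
  Nat.ble (u * G.pos tt r) (w * 1000000000000 + u * G.neg tt r)

theorem GA.nn {G : GA} {tt : Fin 3 → ℕ} {r : ℕ} (h : G.nnk tt r = true) : 0 ≤ G.ev (vx tt r) := by
  unfold GA.nnk at h
  rw [Nat.ble_eq] at h
  rw [GA.ev_vx]
  have : ((G.neg tt r : ℕ) : ℝ) ≤ (G.pos tt r : ℕ) := by exact_mod_cast h
  have h2 : 0 ≤ (G.pos tt r : ℝ) - (G.neg tt r : ℝ) := by linarith
  positivity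

theorem GA.le {G : GA} {tt : Fin 3 → ℕ} {r u w : ℕ} (h : G.ck tt r u w = true) :
    qq u * G.ev (vx tt r) ≤ qq w := by
  unfold GA.ck at h
  rw [Nat.ble_eq] at h
  rw [GA.ev_vx]
  have h1 : (u : ℝ) * (G.pos tt r : ℝ) ≤ (w : ℝ) * 1000000000000 + (u : ℝ) * (G.neg tt r : ℝ) := by
    exact_mod_cast h
  unfold qq
  have : (u : ℝ) / 1000000 * (((G.pos tt r : ℝ) - (G.neg tt r : ℝ)) / 1000000000000) =
      ((u : ℝ) * (G.pos tt r : ℝ) - (u : ℝ) * (G.neg tt r : ℝ)) / 1000000000000 / 1000000 := by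
    ring
  rw [this]
  refine div_le_div_of_nonneg_right ?_ (by norm_num)
  rw [div_le_iff₀ (by norm_num)]
  linarith

/-! ### The weights -/

/-- the weights of the members -/
noncomputable def wt (tt : Fin 3 → ℕ) (n : Fin 3 → ℝ) (be : ℝ) (e : Fin 8 × Bool) : ℝ :=
  wbx tt n e.1 * (if e.2 = true then be else 1 - be)

theorem wt_nonneg {tt : Fin 3 → ℕ} {n : Fin 3 → ℝ} (hn0 : ∀ k, 0 ≤ n k)
    (hn : ∀ k, n k ≤ (tt k : ℝ) / 1000000) {be : ℝ} (b0 : 0 ≤ be) (b1 : be ≤ 1)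
    (e : Fin 8 × Bool) : 0 ≤ wt tt n be e := by
  unfold wt
  refine mul_nonneg (wbx_nonneg hn0 hn _) ?_
  split_ifs
  · exact b0
  · linarith

/-- a sum over the members -/
theorem wt_sum (tt : Fin 3 → ℕ) (n : Fin 3 → ℝ) (be : ℝ) (f : Fin 8 × Bool → ℝ) :
    ∑ e, wt tt n be e * f e =
      ∑ r : Fin 8, wbx tt n r * ((1 - be) * f (r, false) + be * f (r, true)) := by
  rw [Fintype.sum_prod_type]
  refine sum_congr rfl fun r _ => ?_
  rw [Fintype.sum_bool]
  unfold wt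
  simp only [if_true, Bool.false_eq_true, if_false]
  ring

theorem wt_one (tt : Fin 3 → ℕ) (n : Fin 3 → ℝ) (be : ℝ) : ∑ e, wt tt n be e = 1 := by
  have h := wt_sum tt n be fun _ => 1
  simp only [mul_one] at h
  rw [h]
  have e1 : ∀ r : Fin 8, wbx tt n r * (1 - be + be) = wbx tt n r := fun r => by ring
  simp only [e1]
  rw [Fin.sum_univ_eq_sum_range (fun r => wbx tt n r) 8]
  exact bw8_one _ _ _

/-- affine functions of the leaks are the mean of the corners -/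
theorem ga_mean {tt : Fin 3 → ℕ} {n : Fin 3 → ℝ} (hn0 : ∀ k, 0 ≤ n k)
    (hn : ∀ k, n k ≤ (tt k : ℝ) / 1000000) (G : GA) :
    ∑ r : Fin 8, wbx tt n r * G.ev (vx tt r) = G.ev n := by
  rw [Fin.sum_univ_eq_sum_range (fun r => wbx tt n r * G.ev (vx tt r)) 8]
  have h := wbx_mean (tt := tt) hn0 hn (qq G.c0) (qq (G.p 0) - qq (G.m 0))
    (qq (G.p 1) - qq (G.m 1)) (qq (G.p 2) - qq (G.m 2)) 0 0 0 0
  have e1 : G.ev n = qq G.c0 + (qq (G.p 0) - qq (G.m 0)) * n 0 + (qq (G.p 1) - qq (G.m 1)) * n 1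
      + (qq (G.p 2) - qq (G.m 2)) * n 2 + 0 * (n 0 * n 1) + 0 * (n 0 * n 2) + 0 * (n 1 * n 2)
      + 0 * (n 0 * n 1 * n 2) := by
    unfold GA.ev
    ring
  rw [e1, ← h]
  refine sum_congr rfl fun r _ => ?_
  congr 1
  unfold GA.ev vx
  simp only [qq]
  ring

/-- the coordinate `k` of the leaks -/
def gk (k : Fin 3) : GA := ⟨0, fun j => if j = k then 1000000 else 0, fun _ => 0⟩

theorem gk_ev (k : Fin 3) (n : Fin 3 → ℝ) : (gk k).ev n = n k := by
  unfold GA.ev gk qq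
  fin_cases k <;> simp

/-- the constant one -/
def g1 : GA := ⟨1000000, fun _ => 0, fun _ => 0⟩

theorem g1_ev (n : Fin 3 → ℝ) : g1.ev n = 1 := by
  unfold GA.ev g1 qq
  simp

/-! ### Means of the rows -/

section mean
variable {n : ℕ} {mu : ℕ → ℝ} {tt : Fin 3 → ℕ} {nn : Fin 3 → ℝ} {be : ℝ}
  {rs : Fin 8 × Bool → List RN}

/-- **the mean of a number of the rows**: `(∑ mu u) * G(n) * bit` -/
theorem mean_ge (hn0 : ∀ k, 0 ≤ nn k) (hn : ∀ k, nn k ≤ (tt k : ℝ) / 1000000) (b0 : 0 ≤ be)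
    (b1 : be ≤ 1) (hmu : ∀ i, 0 ≤ mu i) (f : RN → ℕ) (u : ℕ → ℝ) (G : GA) (p0 p1 : ℝ)
    (h0 : ∀ r : Fin 8, ∀ i < n, u i * G.ev (vx tt r) * p0 ≤ qq (f ((rs (r, false)).getD i rn0)))
    (h1 : ∀ r : Fin 8, ∀ i < n, u i * G.ev (vx tt r) * p1 ≤ qq (f ((rs (r, true)).getD i rn0))) :
    (∑ i ∈ range n, mu i * u i) * G.ev nn * ((1 - be) * p0 + be * p1) ≤
      ∑ e, wt tt nn be e * mn n mu (rs e) f := by
  rw [wt_sum, ← ga_mean hn0 hn G]
  have e1 : (∑ i ∈ range n, mu i * u i) * (∑ r : Fin 8, wbx tt nn r * G.ev (vx tt r)) *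
      ((1 - be) * p0 + be * p1) = ∑ r : Fin 8, wbx tt nn r *
        ((1 - be) * (∑ i ∈ range n, mu i * (u i * G.ev (vx tt r) * p0))
          + be * (∑ i ∈ range n, mu i * (u i * G.ev (vx tt r) * p1))) := by
    have a1 : ∀ (r : Fin 8) (p : ℝ), ∑ i ∈ range n, mu i * (u i * G.ev (vx tt r) * p) =
        (∑ i ∈ range n, mu i * u i) * (G.ev (vx tt r) * p) := fun r p => by
      rw [sum_mul]
      exact sum_congr rfl fun i _ => by ring
    simp only [a1]
    rw [mul_sum, sum_mul]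
    exact sum_congr rfl fun r _ => by ring
  rw [e1]
  refine sum_le_sum fun r _ => mul_le_mul_of_nonneg_left ?_ (wbx_nonneg hn0 hn _)
  have k0 : ∑ i ∈ range n, mu i * (u i * G.ev (vx tt r) * p0) ≤ mn n mu (rs (r, false)) f :=
    sum_le_sum fun i hi => mul_le_mul_of_nonneg_left (h0 r i (mem_range.1 hi)) (hmu i)
  have k1 : ∑ i ∈ range n, mu i * (u i * G.ev (vx tt r) * p1) ≤ mn n mu (rs (r, true)) f :=
    sum_le_sum fun i hi => mul_le_mul_of_nonneg_left (h1 r i (mem_range.1 hi)) (hmu i)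
  exact add_le_add (mul_le_mul_of_nonneg_left k0 (by linarith)) (mul_le_mul_of_nonneg_left k1 b0)

/-- the mean of a number of the rows of one member -/
theorem mn_ge (hmu : ∀ i, 0 ≤ mu i) {L : List RN} (f : RN → ℕ) (u : ℕ → ℝ)
    (h : ∀ i < n, u i ≤ qq (f (L.getD i rn0))) :
    ∑ i ∈ range n, mu i * u i ≤ mn n mu L f :=
  sum_le_sum fun i hi => mul_le_mul_of_nonneg_left (h i (mem_range.1 hi)) (hmu i)

end mean

/-! ### The weights of the rows -/

section row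
variable {ι : Type} [Fintype ι] {n : ℕ}

/-- a function of the vertices as a function of the numbers of the rows -/
noncomputable def mu (en : Fin n ≃ ι) (lam : ι → ℝ) (i : ℕ) : ℝ :=
  if h : i < n then lam (en ⟨i, h⟩) else 0

omit [Fintype ι] in
theorem mu_nonneg (en : Fin n ≃ ι) {lam : ι → ℝ} (h : ∀ v, 0 ≤ lam v) (i : ℕ) :
    0 ≤ mu en lam i := by
  unfold mu
  split_ifs
  · exact h _
  · exact le_rfl

omit [Fintype ι] in
theorem mu_lt (en : Fin n ≃ ι) (lam : ι → ℝ) {i : ℕ} (h : i < n) :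
    mu en lam i = lam (en ⟨i, h⟩) := by
  unfold mu
  rw [dif_pos h]

/-- a sum over the rows is a sum over the vertices -/
theorem mu_sum (en : Fin n ≃ ι) (lam F : ι → ℝ) :
    ∑ i ∈ range n, mu en lam i * mu en F i = ∑ v, lam v * F v := by
  rw [← Fin.sum_univ_eq_sum_range (fun i => mu en lam i * mu en F i) n,
    ← Equiv.sum_comp en fun v => lam v * F v]
  refine sum_congr rfl fun i _ => ?_
  rw [mu_lt en lam i.2, mu_lt en F i.2]

theorem mu_one (en : Fin n ≃ ι) {lam : ι → ℝ} (h : ∑ v, lam v = 1) :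
    ∑ i ∈ range n, mu en lam i = 1 := by
  rw [← Fin.sum_univ_eq_sum_range (fun i => mu en lam i) n, ← h, ← Equiv.sum_comp en fun v => lam v]
  refine sum_congr rfl fun i _ => ?_
  rw [mu_lt en lam i.2]

end row

/-! ### The check of the rows -/

/-- the check of the row of a vertex (numbers `v0, vk, vj, vl`, units `10⁻⁶`), of a corner `r`
and of a bit `b`; the deficit of the apex is `ub * Gb` -/
def rowc (tt : Fin 3 → ℕ) (ub : ℕ) (Gb Gt Gp : GA) (v0 vk vj vl : ℕ) (k : Fin 3) (r : ℕ) (b : Bool)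
    (R : RN) : Bool :=
  Nat.ble v0 R.s && Nat.ble vk R.Sk && Nat.ble vj R.Sj && Nat.ble vl R.Sl &&
  Nat.ble (vxk tt k r) R.nk && Nat.ble (vxk tt (jj k) r) R.nj && Nat.ble (vxk tt (ll k) r) R.nl &&
  (!b || Gb.ck tt r ub R.b) && Gt.ck tt r v0 R.te && Gp.ck tt r v0 R.pe

theorem rowc_iff {tt : Fin 3 → ℕ} {ub : ℕ} {Gb Gt Gp : GA} {v0 vk vj vl : ℕ} {k : Fin 3} {r : ℕ}
    {b : Bool} {R : RN} (h : rowc tt ub Gb Gt Gp v0 vk vj vl k r b R = true) :
    v0 ≤ R.s ∧ vk ≤ R.Sk ∧ vj ≤ R.Sj ∧ vl ≤ R.Sl ∧ vxk tt k r ≤ R.nk ∧ vxk tt (jj k) r ≤ R.nj ∧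
    vxk tt (ll k) r ≤ R.nl ∧ (b = true → Gb.ck tt r ub R.b = true) ∧
    Gt.ck tt r v0 R.te = true ∧ Gp.ck tt r v0 R.pe = true := by
  unfold rowc at h
  simp only [Bool.and_eq_true, Nat.ble_eq, Bool.or_eq_true, Bool.not_eq_true'] at h
  obtain ⟨⟨⟨⟨⟨⟨⟨⟨⟨h1, h2⟩, h3⟩, h4⟩, h5⟩, h6⟩, h7⟩, h8⟩, h9⟩, h10⟩ := h
  refine ⟨h1, h2, h3, h4, h5, h6, h7, fun hb => ?_, h9, h10⟩
  rcases h8 with h8 | h8
  · rw [hb] at h8
    exact absurd h8 (by decide)
  · exact h8

/-- **the check of the rows of a corner**: `vN i` = numbers of the vertex `i`, the corner `k` has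
the vertices `t0` (level), `tk`, `tj`, `tl` -/
def vck (n : ℕ) (tt : Fin 3 → ℕ) (ub : ℕ) (Gb Gt Gp : GA) (vN : ℕ → Fin 4 → ℕ) (t0 tk tj tl : Fin 4)
    (k : Fin 3) (rs : ℕ → Bool → List RN) : Bool :=
  (List.range 8).all fun r => Gt.nnk tt r && Gp.nnk tt r &&
    ((List.range n).all fun i =>
      rowc tt ub Gb Gt Gp (vN i t0) (vN i tk) (vN i tj) (vN i tl) k r false
        ((rs r false).getD i rn0) &&
      rowc tt ub Gb Gt Gp (vN i t0) (vN i tk) (vN i tj) (vN i tl) k r true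
        ((rs r true).getD i rn0))

section main
variable {ι : Type} [Fintype ι] {n : ℕ} {tt : Fin 3 → ℕ} {ub : ℕ} {Gb Gt Gp : GA}
  {vN : ℕ → Fin 4 → ℕ} {t0 tk tj tl : Fin 4} {k : Fin 3} {rs : ℕ → Bool → List RN}

theorem vck_row (h : vck n tt ub Gb Gt Gp vN t0 tk tj tl k rs = true) {r : ℕ} (hr : r < 8) :
    0 ≤ Gt.ev (vx tt r) ∧ 0 ≤ Gp.ev (vx tt r) ∧ ∀ i < n, ∀ b : Bool,
      rowc tt ub Gb Gt Gp (vN i t0) (vN i tk) (vN i tj) (vN i tl) k r b
        ((rs r b).getD i rn0) = true := by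
  unfold vck at h
  have h1 := List.all_eq_true.1 h r (List.mem_range.2 hr)
  simp only [Bool.and_eq_true, List.all_eq_true, List.mem_range] at h1
  refine ⟨GA.nn h1.1.1, GA.nn h1.1.2, fun i hi b => ?_⟩
  obtain ⟨h3, h4⟩ := h1.2 i hi
  cases b
  · exact h3
  · exact h4

variable {V : ι → Fin 4 → ℝ} {S : Fin 4 → ℝ} {lam : ι → ℝ} {τ : Equiv.Perm (Fin 4)}
  {N : Fin 3 → Fin 3 → ℝ} {be : ℝ}

theorem qq_mono {a b : ℕ} (h : a ≤ b) : qq a ≤ qq b := by
  unfold qq
  have : (a : ℝ) ≤ b := by exact_mod_cast h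
  gcongr

/-- **THE STATE OF THE CORNER IS AT MOST THE MEAN OF THE ROWS** (premise of `loads_fam`) -/
theorem vr_hst (h : vck n tt ub Gb Gt Gp vN t0 tk tj tl k rs = true) (en : Fin n ≃ ι)
    (hD : Pool.Agent.Helper31.SR.IntC.Dc V S lam)
    (hV : ∀ (i : Fin n) (j : Fin 4), V (en i) j ≤ qq (vN i j))
    (e0 : τ 0 = t0) (ek : τ k.succ = tk) (ej : τ (jj k).succ = tj) (el : τ (ll k).succ = tl)
    (hn0 : ∀ m, 0 ≤ nc N m) (hn : ∀ m, nc N m ≤ (tt m : ℝ) / 1000000) (b0 : 0 ≤ be) (b1 : be ≤ 1)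
    {Q : Fin 8 × Bool → Cor} (hQ : ∀ e, (Q e).rows.length = n) :
    (stc S τ N k (be * (qq ub * Gb.ev (nc N))) (S (τ 0) * Gt.ev (nc N)) (S (τ 0) * Gp.ev (nc N))).Le
      (fm (wt tt (nc N) be) fun e => mr (Q e).rows.length (mu en lam) (rs e.1 e.2)) := by
  have hmu := mu_nonneg en hD.nn
  have hone := mu_one en hD.one
  have hS : ∀ j, ∑ i ∈ range n, mu en lam i * mu en (fun v => V v j) i = S j := fun j => by
    rw [mu_sum, ← hD.eq]
  have hu : ∀ (j : Fin 4) {i : ℕ}, i < n → mu en (fun v => V v j) i ≤ qq (vN i j) := by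
    intro j i hi
    rw [mu_lt en _ hi]
    exact hV ⟨i, hi⟩ j
  have row := fun (r : Fin 8) (i : ℕ) (hi : i < n) (b : Bool) =>
    rowc_iff ((vck_row h r.2).2.2 i hi b)
  -- numbers of the vertex
  have hvs : ∀ (j : Fin 4) (f : RN → ℕ), (∀ (r : Fin 8) (b : Bool), ∀ i < n,
      vN i j ≤ f ((rs r b).getD i rn0)) → S j ≤
      ∑ e, wt tt (nc N) be e * mn n (mu en lam) (rs e.1 e.2) f := by
    intro j f hf
    have key := mean_ge (rs := fun e => rs e.1 e.2) hn0 hn b0 b1 hmu f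
      (mu en fun v => V v j) g1 1 1
      (fun r i hi => by
        rw [g1_ev, mul_one, mul_one]
        exact (hu j hi).trans (qq_mono (hf r false i hi)))
      (fun r i hi => by
        rw [g1_ev, mul_one, mul_one]
        exact (hu j hi).trans (qq_mono (hf r true i hi)))
    rw [hS, g1_ev] at key
    linarith
  -- leaks
  have hns : ∀ (m : Fin 3) (f : RN → ℕ), (∀ (r : Fin 8) (b : Bool), ∀ i < n,
      vxk tt m r ≤ f ((rs r b).getD i rn0)) → nc N m ≤
      ∑ e, wt tt (nc N) be e * mn n (mu en lam) (rs e.1 e.2) f := by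
    intro m f hf
    have key := mean_ge (rs := fun e => rs e.1 e.2) hn0 hn b0 b1 hmu f
      (fun _ => 1) (gk m) 1 1
      (fun r i hi => by
        rw [gk_ev, one_mul, mul_one]
        exact qq_mono (hf r false i hi))
      (fun r i hi => by
        rw [gk_ev, one_mul, mul_one]
        exact qq_mono (hf r true i hi))
    simp only [mul_one] at key
    rw [hone, gk_ev] at key
    linarith
  -- products with the level
  have hps : ∀ (G : GA) (f : RN → ℕ), (∀ r : Fin 8, 0 ≤ G.ev (vx tt r)) →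
      (∀ (r : Fin 8) (b : Bool), ∀ i < n,
        G.ck tt r (vN i t0) (f ((rs r b).getD i rn0)) = true) → S (τ 0) * G.ev (nc N) ≤
      ∑ e, wt tt (nc N) be e * mn n (mu en lam) (rs e.1 e.2) f := by
    intro G f hG hf
    have key := mean_ge (rs := fun e => rs e.1 e.2) hn0 hn b0 b1 hmu f
      (mu en fun v => V v (τ 0)) G 1 1
      (fun r i hi => by
        rw [mul_one, e0]
        exact (mul_le_mul_of_nonneg_right (hu t0 hi) (hG r)).trans (GA.le (hf r false i hi)))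
      (fun r i hi => by
        rw [mul_one, e0]
        exact (mul_le_mul_of_nonneg_right (hu t0 hi) (hG r)).trans (GA.le (hf r true i hi)))
    rw [hS] at key
    linarith
  have hbs : be * (qq ub * Gb.ev (nc N)) ≤
      ∑ e, wt tt (nc N) be e * mn n (mu en lam) (rs e.1 e.2) RN.b := by
    have key := mean_ge (rs := fun e => rs e.1 e.2) hn0 hn b0 b1 hmu RN.b
      (fun _ => qq ub) Gb 0 1
      (fun r i hi => by
        rw [mul_zero]
        exact qq_nonneg _)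
      (fun r i hi => by
        rw [mul_one]
        exact GA.le ((row r i hi true).2.2.2.2.2.2.2.1 rfl))
    rw [← sum_mul, hone] at key
    linarith
  simp only [hQ]
  refine ⟨?_, ?_, ?_, ?_, ?_, ?_, ?_, ?_, ?_, ?_⟩
  · exact hvs _ RN.s fun r b i hi => by
      rw [e0]
      exact (row r i hi b).1
  · exact hvs _ RN.Sk fun r b i hi => by
      rw [ek]
      exact (row r i hi b).2.1
  · exact hvs _ RN.Sj fun r b i hi => by
      rw [ej]
      exact (row r i hi b).2.2.1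
  · exact hvs _ RN.Sl fun r b i hi => by
      rw [el]
      exact (row r i hi b).2.2.2.1
  · exact hns _ RN.nk fun r b i hi => (row r i hi b).2.2.2.2.1
  · exact hns _ RN.nj fun r b i hi => (row r i hi b).2.2.2.2.2.1
  · exact hns _ RN.nl fun r b i hi => (row r i hi b).2.2.2.2.2.2.1
  · exact hbs
  · exact hps Gt RN.te (fun r => (vck_row h r.2).1) fun r b i hi =>
      (row r i hi b).2.2.2.2.2.2.2.2.1
  · exact hps Gp RN.pe (fun r => (vck_row h r.2).2.1) fun r b i hi =>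
      (row r i hi b).2.2.2.2.2.2.2.2.2

/-- **THE ROW BOUNDS OF EVERY MEMBER** (premise of rule R9) -/
theorem vr_rowB (h : vck n tt ub Gb Gt Gp vN t0 tk tj tl k rs = true) (en : Fin n ≃ ι)
    (hD : Pool.Agent.Helper31.SR.IntC.Dc V S lam)
    (hV : ∀ (i : Fin n) (j : Fin 4), V (en i) j ≤ qq (vN i j))
    (e0 : τ 0 = t0) (ek : τ k.succ = tk) (ej : τ (jj k).succ = tj) (el : τ (ll k).succ = tl)
    {P : TP} {As : List LT} {Vs : List VT} {q0 q1 : ℕ} {Q : Fin 8 × Bool → Cor}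
    (hQ : ∀ e, (Q e).rows.length = n)
    (hT : ∀ e, tck P As Vs q0 q1 (rs e.1 e.2) (Q e) = true) (e : Fin 8 × Bool) :
    RowB (Q e) (mu en lam) (S (τ k.succ)) (S (τ (jj k).succ)) (S (τ (ll k).succ)) (S (τ 0)) := by
  have hmu := mu_nonneg en hD.nn
  have hone := mu_one en hD.one
  have hS : ∀ j, ∑ i ∈ range n, mu en lam i * mu en (fun v => V v j) i = S j := fun j => by
    rw [mu_sum, ← hD.eq]
  have hu : ∀ (j : Fin 4) {i : ℕ}, i < n → mu en (fun v => V v j) i ≤ qq (vN i j) := by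
    intro j i hi
    rw [mu_lt en _ hi]
    exact hV ⟨i, hi⟩ j
  have row := fun (i : ℕ) (hi : i < n) => rowc_iff ((vck_row h e.1.2).2.2 i hi e.2)
  have hvs : ∀ (j : Fin 4) (f : RN → ℕ), (∀ i < n,
      vN i j ≤ f ((rs e.1 e.2).getD i rn0)) → S j ≤ mn n (mu en lam) (rs e.1 e.2) f := by
    intro j f hf
    rw [← hS j]
    exact mn_ge hmu f _ fun i hi => (hu j hi).trans (qq_mono (hf i hi))
  refine rowB (hT e) hmu (by rw [hQ]; exact hone) ?_ ?_ ?_ ?_
  · rw [hQ, ek]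
    exact hvs _ _ fun i hi => (row i hi).2.1
  · rw [hQ, ej]
    exact hvs _ _ fun i hi => (row i hi).2.2.1
  · rw [hQ, el]
    exact hvs _ _ fun i hi => (row i hi).2.2.2.1
  · rw [hQ, e0]
    exact hvs _ _ fun i hi => (row i hi).1

end main

end Helper49.VR
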