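import Pool.Agent.Helper22.MEI.Sgn

/-!
# Project MEI (M2), TEAM TC: product coupling of the two cells of a pair of opposite edges

* `XQ_pair`: the identity of helper95, `X_A(q) + X_B(q') = 1 - ‖q - q'‖² + 2 h h' - 2 x x' - 2 y y'`;
* `prod_nn`: a sum of products of functions which is nonnegative at almost all pairs of points has
  a nonnegative sum of products of integrals;
* `cpl`: the product inequality with any nonnegative coupling density `Σ φ_i(z) ψ_i(z')`;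
* `cpl_marg`: the same with exact marginals.
-/

set_option autoImplicit false

namespace Helper49.Cpl

open Set Metric MeasureTheory Helper80.CW Helper14.CW Helper14.MEI2
open Helper93.MEI Helper37.MEI Helper41.MEI Helper78.MEI
open Pool.Agent.Helper8.MEI (DD DD_pos DD_ge)
open Pool.Agent.Helper73.MEI (PM TE TE_exc pf pr pr_apply pf_bij)
open Pool.Agent.Helper95.MEI.Fub (Zp exc exc_cont eX_cont eY_cont eW_cont Qv_cont
  DDe_cont int_cont Zp_meas mir mir_gram mir_eX mir_eY mir_eW mir_eV mir_Zp mir_perm)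
open scoped RealInnerProductSpace Real

/-! ### products -/

theorem prod_nn {ι α β : Type*} [Fintype ι] [MeasurableSpace α] [MeasurableSpace β]
    {μ : Measure α} {ν : Measure β} {Φ : ι → α → ℝ} {Ψ : ι → β → ℝ}
    (hΦ : ∀ i, Integrable (Φ i) μ) (hΨ : ∀ i, Integrable (Ψ i) ν)
    (h : ∀ᵐ z ∂μ, ∀ᵐ z' ∂ν, 0 ≤ ∑ i, Φ i z * Ψ i z') :
    0 ≤ ∑ i, (∫ z, Φ i z ∂μ) * ∫ z', Ψ i z' ∂ν := by
  have h1 : ∀ᵐ z ∂μ, 0 ≤ ∑ i, Φ i z * ∫ z', Ψ i z' ∂ν := by
    filter_upwards [h] with z hz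
    have h3 := integral_nonneg_of_ae hz
    rw [integral_finsetSum _ (fun i _ => (hΨ i).const_mul _)] at h3
    simpa [integral_const_mul] using h3
  have h2 := integral_nonneg_of_ae h1
  rw [integral_finsetSum _ (fun i _ => (hΦ i).mul_const _)] at h2
  simpa [integral_mul_const] using h2

/-! ### the identity -/

/-- the even part of `4 D exc` -/
noncomputable def XQ (a : Fin 4 → E3) (q : E3) : ℝ := -((Qv a 0 q + Qv a 1 q) / 2)

/-- the weight of the cell -/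
noncomputable def rh (a : Fin 4 → E3) (z : E3 × E3) : ℝ :=
  (4 * DD (eX a z.1) (eY a z.1) (eW a z.1))⁻¹

section pt
variable {a : Fin 4 → E3}

theorem rh_pos (a : Fin 4 → E3) (z : E3 × E3) : 0 < rh a z := by
  have := DD_pos (eX a z.1) (eY a z.1) (eW a z.1)
  unfold rh
  positivity

theorem rh_le_one (a : Fin 4 → E3) (z : E3 × E3) : rh a z ≤ 1 := by
  have h1 : (1 : ℝ) ≤ 4 * DD (eX a z.1) (eY a z.1) (eW a z.1) := by
    unfold DD
    nlinarith [sq_nonneg (eX a z.1), sq_nonneg (eY a z.1), sq_nonneg (eW a z.1)]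
  unfold rh
  exact inv_le_one_of_one_le₀ h1

theorem rh_cont (a : Fin 4 → E3) : Continuous (rh a) := by
  unfold rh
  refine Continuous.inv₀ (continuous_const.mul (DDe_cont a)) fun z => ?_
  have := DD_pos (eX a z.1) (eY a z.1) (eW a z.1)
  positivity

theorem rh_wt (z : E3 × E3) : rh a z = wt a false z.1 + wt a true z.1 := by
  unfold rh wt
  rw [← add_div]
  simp only [Bool.false_eq_true, if_false, if_true]
  rw [inv_eq_one_div]
  congr 1
  ring

/-- **`exc = (X + 7/8 x_p x_q)/(4 D)`** -/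
theorem exc_XQ (h : Gram4 (al a)) (z : E3 × E3) :
    exc a z = (XQ a z.2 + 7 / 8 * (eX a z.1 * eX a z.2)) * rh a z := by
  have e : Qv a 0 z.2 - Qv a 1 z.2 = -2 * eX a z.2 := by
    rw [Qv0_e h, Qv1_e h]
    ring
  unfold exc XQ rh
  rw [div_eq_mul_inv]
  congr 1
  linear_combination (-(7 * eX a z.1 / 16)) * e

/-- **helper95's identity** -/
theorem XQ_pair (h : Gram4 (al a)) (q q' : E3) :
    XQ a q + XQ (mir a) q' = (1 - ‖q - q'‖ ^ 2) + 2 * (eV a q * eW a q') -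
      2 * (eX a q * eX a q') - 2 * (eY a q * eY a q') := by
  have e0 : Qv (mir a) 0 q' = Qv a 2 q' := rfl
  have e1 : Qv (mir a) 1 q' = Qv a 3 q' := rfl
  unfold XQ
  rw [e0, e1, Qv0_e h, Qv1_e h, Qv2_e h, Qv3_e h, norm_sub_sq_e h, eV_eq h]
  ring

/-- the pointwise inequality for two points at distance at most one -/
theorem XQ_ge (h : Gram4 (al a)) {q q' : E3} (hq : ‖q - q'‖ ≤ 1) :
    0 ≤ XQ a q + XQ (mir a) q' - 2 * (eV a q * eW a q') +
      2 * (eX a q * eX a q') + 2 * (eY a q * eY a q') := by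
  have h1 : ‖q - q'‖ ^ 2 ≤ 1 := by
    have := norm_nonneg (q - q')
    nlinarith
  rw [XQ_pair h]
  linarith

theorem eV_cont (a : Fin 4 → E3) : Continuous (eV a) := by
  have : eV a = eW (mir a) := by
    funext x
    exact (mir_eW a x).symm
  rw [this]
  exact eW_cont (mir a)

theorem XQ_cont (a : Fin 4 → E3) : Continuous (XQ a) := by
  have h0 := Qv_cont a 0
  have h1 := Qv_cont a 1
  unfold XQ
  fun_prop

end pt

/-! ### integrals over the cells -/

/-- the weighted integral over the cell of the edge `0 1` -/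
noncomputable def IA (σ : Measure (E3 × E3)) (a : Fin 4 → E3) (φ : E3 × E3 → ℝ) : ℝ :=
  ∫ z in Zp a 2 3, φ z * rh a z ∂σ

section int
variable {a : Fin 4 → E3} {K : Set E3} {σ : Measure (E3 × E3)} [IsFiniteMeasure σ]

/-- bounded measurable times continuous -/
theorem int_bd (hK : IsCompact K) (hσ : ∀ᵐ z ∂σ, z.1 ∈ K ∧ z.2 ∈ K) {φ f : E3 × E3 → ℝ} {C : ℝ}
    (hφ : AEStronglyMeasurable φ σ) (hb : ∀ᵐ z ∂σ, |φ z| ≤ C) (hf : Continuous f) :
    Integrable (fun z => φ z * f z) σ := by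
  refine (int_cont hK hσ hf).bdd_mul (c := C) hφ ?_
  filter_upwards [hb] with z hz
  rw [Real.norm_eq_abs]
  exact hz

theorem IA_smul (c : ℝ) (φ : E3 × E3 → ℝ) : IA σ a (fun z => c * φ z) = c * IA σ a φ := by
  unfold IA
  rw [← integral_const_mul]
  congr 1
  funext z
  ring

theorem IA_add {φ ψ : E3 × E3 → ℝ} (h1 : Integrable (fun z => φ z * rh a z) σ)
    (h2 : Integrable (fun z => ψ z * rh a z) σ) :
    IA σ a (fun z => φ z + ψ z) = IA σ a φ + IA σ a ψ := by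
  unfold IA
  rw [← integral_add h1.integrableOn h2.integrableOn]
  congr 1
  funext z
  ring

theorem IA_sum {ι : Type*} [Fintype ι] {φ : ι → E3 × E3 → ℝ}
    (h1 : ∀ i, Integrable (fun z => φ i z * rh a z) σ) :
    IA σ a (fun z => ∑ i, φ i z) = ∑ i, IA σ a (φ i) := by
  unfold IA
  rw [← integral_finsetSum _ fun i _ => (h1 i).integrableOn]
  congr 1
  funext z
  rw [Finset.sum_mul]

theorem IA_mono {φ ψ : E3 × E3 → ℝ} (h1 : Integrable (fun z => φ z * rh a z) σ)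
    (h2 : Integrable (fun z => ψ z * rh a z) σ)
    (h : ∀ᵐ z ∂σ.restrict (Zp a 2 3), φ z ≤ ψ z) : IA σ a φ ≤ IA σ a ψ := by
  unfold IA
  refine integral_mono_ae h1.integrableOn h2.integrableOn ?_
  filter_upwards [h] with z hz
  exact mul_le_mul_of_nonneg_right hz (rh_pos a z).le

/-- the mass of the cell is the sum of the two masses of helper22 -/
theorem IA_one (hK : IsCompact K) (hσ : ∀ᵐ z ∂σ, z.1 ∈ K ∧ z.2 ∈ K) :
    IA σ a (fun _ => 1) = (∫ z in Zp a 2 3, wt a false z.1 ∂σ) +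
      ∫ z in Zp a 2 3, wt a true z.1 ∂σ := by
  have i1 : ∀ i, Integrable (fun z : E3 × E3 => wt a i z.1) σ := fun i =>
    int_cont hK hσ ((wt_cont a i).comp continuous_fst)
  unfold IA
  rw [← integral_add (i1 _).integrableOn (i1 _).integrableOn]
  congr 1
  funext z
  rw [one_mul, rh_wt]

/-- the excess of the cell -/
theorem IA_exc (h : Gram4 (al a)) (hK : IsCompact K) (hσ : ∀ᵐ z ∂σ, z.1 ∈ K ∧ z.2 ∈ K) :
    ∫ z in Zp a 2 3, exc a z ∂σ = IA σ a (fun z => XQ a z.2) +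
      7 / 8 * IA σ a (fun z => eX a z.1 * eX a z.2) := by
  have c1 : Continuous fun z : E3 × E3 => XQ a z.2 * rh a z :=
    ((XQ_cont a).comp continuous_snd).mul (rh_cont a)
  have c2 : Continuous fun z : E3 × E3 => 7 / 8 * (eX a z.1 * eX a z.2) * rh a z :=
    (continuous_const.mul (((eX_cont a).comp continuous_fst).mul
      ((eX_cont a).comp continuous_snd))).mul (rh_cont a)
  have e : IA σ a (fun z => XQ a z.2 + 7 / 8 * (eX a z.1 * eX a z.2)) =
      IA σ a (fun z => XQ a z.2) + IA σ a (fun z => 7 / 8 * (eX a z.1 * eX a z.2)) :=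
    IA_add (int_cont hK hσ c1) (int_cont hK hσ c2)
  rw [IA_smul] at e
  rw [← e]
  unfold IA
  congr 1
  funext z
  exact exc_XQ h z

/-- **product inequality** with the coupling density `Σ φ_i(z) ψ_i(z')` -/
theorem cpl (h : Gram4 (al a)) (hK : IsCompact K) (hd : ∀ x ∈ K, ∀ y ∈ K, ‖x - y‖ ≤ 1)
    (hσ : ∀ᵐ z ∂σ, z.1 ∈ K ∧ z.2 ∈ K) {ι : Type*} [Fintype ι] {φ ψ : ι → E3 × E3 → ℝ} {C : ℝ}
    (hφ : ∀ i, AEStronglyMeasurable (φ i) σ) (hψ : ∀ i, AEStronglyMeasurable (ψ i) σ)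
    (hφb : ∀ i, ∀ᵐ z ∂σ, |φ i z| ≤ C) (hψb : ∀ i, ∀ᵐ z ∂σ, |ψ i z| ≤ C)
    (hg : ∀ᵐ z ∂σ.restrict (Zp a 2 3), ∀ᵐ z' ∂σ.restrict (Zp (mir a) 2 3),
      0 ≤ ∑ i, φ i z * ψ i z') :
    0 ≤ ∑ i, (IA σ a (fun z => φ i z * XQ a z.2) * IA σ (mir a) (ψ i) +
      IA σ a (φ i) * IA σ (mir a) (fun z => ψ i z * XQ (mir a) z.2) -
      2 * (IA σ a (fun z => φ i z * eV a z.2) * IA σ (mir a) (fun z => ψ i z * eW a z.2)) +
      2 * (IA σ a (fun z => φ i z * eX a z.2) * IA σ (mir a) (fun z => ψ i z * eX a z.2)) +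
      2 * (IA σ a (fun z => φ i z * eY a z.2) * IA σ (mir a) (fun z => ψ i z * eY a z.2))) := by
  -- the five factors
  let F : Fin 5 → E3 → ℝ := ![XQ a, fun _ => 1, fun q => -2 * eV a q, fun q => 2 * eX a q,
    fun q => 2 * eY a q]
  let G : Fin 5 → E3 → ℝ := ![fun _ => 1, XQ (mir a), eW a, eX a, eY a]
  have hF : ∀ j, Continuous (F j) := by
    have c0 := XQ_cont a
    have c1 := eV_cont a
    have c2 := eX_cont a
    have c3 := eY_cont a
    intro j
    fin_cases j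
    · exact c0
    · exact continuous_const
    · exact continuous_const.mul c1
    · exact continuous_const.mul c2
    · exact continuous_const.mul c3
  have hG : ∀ j, Continuous (G j) := by
    intro j
    fin_cases j
    · exact continuous_const
    · exact XQ_cont (mir a)
    · exact eW_cont a
    · exact eX_cont a
    · exact eY_cont a
  have i1 : ∀ k : ι × Fin 5, Integrable (fun z : E3 × E3 => φ k.1 z * (F k.2 z.2 * rh a z))
      (σ.restrict (Zp a 2 3)) := fun k =>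
    (int_bd hK hσ (hφ k.1) (hφb k.1)
      (((hF k.2).comp continuous_snd).mul (rh_cont a))).integrableOn
  have i2 : ∀ k : ι × Fin 5, Integrable (fun z : E3 × E3 => ψ k.1 z * (G k.2 z.2 * rh (mir a) z))
      (σ.restrict (Zp (mir a) 2 3)) := fun k =>
    (int_bd hK hσ (hψ k.1) (hψb k.1)
      (((hG k.2).comp continuous_snd).mul (rh_cont (mir a)))).integrableOn
  have key := prod_nn (Φ := fun (k : ι × Fin 5) z => φ k.1 z * (F k.2 z.2 * rh a z))
    (Ψ := fun (k : ι × Fin 5) z => ψ k.1 z * (G k.2 z.2 * rh (mir a) z)) i1 i2 ?_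
  · rw [Fintype.sum_prod_type] at key
    refine key.trans (le_of_eq (Finset.sum_congr rfl fun i _ => ?_))
    have e1 : ∀ (b : Fin 4 → E3) (θ : E3 × E3 → ℝ) (H : E3 → ℝ),
        ∫ z in Zp b 2 3, θ z * (H z.2 * rh b z) ∂σ = IA σ b (fun z => θ z * H z.2) := by
      intro b θ H
      unfold IA
      congr 1
      funext z
      ring
    simp only [e1]
    rw [Fin.sum_univ_five]
    have c1 : ∀ (b : Fin 4 → E3) (θ : E3 × E3 → ℝ) (c : ℝ) (H : E3 → ℝ),
        IA σ b (fun z => θ z * (c * H z.2)) = c * IA σ b (fun z => θ z * H z.2) := by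
      intro b θ c H
      rw [← IA_smul]
      congr 1
      funext z
      ring
    have c2 : ∀ (b : Fin 4 → E3) (θ : E3 × E3 → ℝ), IA σ b (fun z => θ z * 1) = IA σ b θ := by
      intro b θ
      congr 1
      funext z
      ring
    show IA σ a (fun z => φ i z * XQ a z.2) * IA σ (mir a) (fun z => ψ i z * 1) +
        IA σ a (fun z => φ i z * 1) * IA σ (mir a) (fun z => ψ i z * XQ (mir a) z.2) +
        IA σ a (fun z => φ i z * (-2 * eV a z.2)) * IA σ (mir a) (fun z => ψ i z * eW a z.2) +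
        IA σ a (fun z => φ i z * (2 * eX a z.2)) * IA σ (mir a) (fun z => ψ i z * eX a z.2) +
        IA σ a (fun z => φ i z * (2 * eY a z.2)) * IA σ (mir a) (fun z => ψ i z * eY a z.2) = _
    rw [c1, c1, c1, c2, c2]
    ring
  · have hσA : ∀ᵐ z ∂σ.restrict (Zp a 2 3), z.1 ∈ K ∧ z.2 ∈ K := ae_restrict_of_ae hσ
    have hσB : ∀ᵐ z ∂σ.restrict (Zp (mir a) 2 3), z.1 ∈ K ∧ z.2 ∈ K := ae_restrict_of_ae hσ
    filter_upwards [hg, hσA] with z hz hzK
    filter_upwards [hz, hσB] with z' hz' hzK'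
    rw [Fintype.sum_prod_type]
    have e : ∀ i, ∑ j : Fin 5, φ i z * (F j z.2 * rh a z) * (ψ i z' * (G j z'.2 * rh (mir a) z')) =
        (φ i z * ψ i z') * ((XQ a z.2 + XQ (mir a) z'.2 - 2 * (eV a z.2 * eW a z'.2) +
          2 * (eX a z.2 * eX a z'.2) + 2 * (eY a z.2 * eY a z'.2)) *
          (rh a z * rh (mir a) z')) := by
      intro i
      rw [Fin.sum_univ_five]
      show φ i z * (XQ a z.2 * rh a z) * (ψ i z' * (1 * rh (mir a) z')) +
        φ i z * (1 * rh a z) * (ψ i z' * (XQ (mir a) z'.2 * rh (mir a) z')) +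
        φ i z * (-2 * eV a z.2 * rh a z) * (ψ i z' * (eW a z'.2 * rh (mir a) z')) +
        φ i z * (2 * eX a z.2 * rh a z) * (ψ i z' * (eX a z'.2 * rh (mir a) z')) +
        φ i z * (2 * eY a z.2 * rh a z) * (ψ i z' * (eY a z'.2 * rh (mir a) z')) = _
      ring
    simp only [e]
    rw [← Finset.sum_mul]
    exact mul_nonneg hz' (mul_nonneg (XQ_ge h (hd _ hzK.2 _ hzK'.2))
      (mul_nonneg (rh_pos a z).le (rh_pos (mir a) z').le))

/-- **product inequality with exact marginals**, in terms of the two excess integrals -/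
theorem cpl_marg (h : Gram4 (al a)) (hK : IsCompact K) (hd : ∀ x ∈ K, ∀ y ∈ K, ‖x - y‖ ≤ 1)
    (hσ : ∀ᵐ z ∂σ, z.1 ∈ K ∧ z.2 ∈ K) {ι : Type*} [Fintype ι] {φ ψ : ι → E3 × E3 → ℝ} {C : ℝ}
    (hφ : ∀ i, AEStronglyMeasurable (φ i) σ) (hψ : ∀ i, AEStronglyMeasurable (ψ i) σ)
    (hφb : ∀ i, ∀ᵐ z ∂σ, |φ i z| ≤ C) (hψb : ∀ i, ∀ᵐ z ∂σ, |ψ i z| ≤ C)
    (hg : ∀ᵐ z ∂σ.restrict (Zp a 2 3), ∀ᵐ z' ∂σ.restrict (Zp (mir a) 2 3),
      0 ≤ ∑ i, φ i z * ψ i z')
    (hm : ∀ᵐ z ∂σ.restrict (Zp a 2 3),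
      ∑ i, φ i z * IA σ (mir a) (ψ i) = IA σ (mir a) (fun _ => 1))
    (hm' : ∀ᵐ z' ∂σ.restrict (Zp (mir a) 2 3),
      ∑ i, IA σ a (φ i) * ψ i z' = IA σ a (fun _ => 1)) :
    ∑ i, (2 * (IA σ a (fun z => φ i z * eV a z.2) * IA σ (mir a) (fun z => ψ i z * eW a z.2)) -
      2 * (IA σ a (fun z => φ i z * eX a z.2) * IA σ (mir a) (fun z => ψ i z * eX a z.2)) -
      2 * (IA σ a (fun z => φ i z * eY a z.2) * IA σ (mir a) (fun z => ψ i z * eY a z.2))) +
      7 / 8 * (IA σ (mir a) (fun _ => 1) * IA σ a (fun z => eX a z.1 * eX a z.2) +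
        IA σ a (fun _ => 1) * IA σ (mir a) (fun z => eY a z.1 * eY a z.2)) ≤
    IA σ (mir a) (fun _ => 1) * (∫ z in Zp a 2 3, exc a z ∂σ) +
      IA σ a (fun _ => 1) * ∫ z in Zp (mir a) 2 3, exc (mir a) z ∂σ := by
  have key := cpl h hK hd hσ hφ hψ hφb hψb hg
  have r1 : Continuous (rh a) := rh_cont a
  have r2 : Continuous (rh (mir a)) := rh_cont (mir a)
  -- the first marginal
  have e1 : ∑ i, IA σ a (fun z => φ i z * XQ a z.2) * IA σ (mir a) (ψ i) =
      IA σ (mir a) (fun _ => 1) * IA σ a (fun z => XQ a z.2) := by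
    have s1 : ∀ i, IA σ a (fun z => φ i z * XQ a z.2) * IA σ (mir a) (ψ i) =
        ∫ z in Zp a 2 3, φ i z * (XQ a z.2 * rh a z) * IA σ (mir a) (ψ i) ∂σ := by
      intro i
      rw [integral_mul_const]
      congr 1
      unfold IA
      congr 1
      funext z
      ring
    have i1 : ∀ i, Integrable (fun z => φ i z * (XQ a z.2 * rh a z) * IA σ (mir a) (ψ i))
        (σ.restrict (Zp a 2 3)) := fun i =>
      ((int_bd hK hσ (hφ i) (hφb i) (((XQ_cont a).comp continuous_snd).mul r1)).mul_const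
        _).integrableOn
    rw [Finset.sum_congr rfl fun i _ => s1 i, ← integral_finsetSum _ fun i _ => i1 i]
    unfold IA
    rw [← integral_const_mul]
    apply integral_congr_ae
    filter_upwards [hm] with z hz
    have e : ∀ i, φ i z * (XQ a z.2 * rh a z) * IA σ (mir a) (ψ i) =
        (φ i z * IA σ (mir a) (ψ i)) * (XQ a z.2 * rh a z) := fun i => by ring
    unfold IA at e hz
    rw [Finset.sum_congr rfl fun i _ => e i, ← Finset.sum_mul, hz]
  -- the second marginal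
  have e2 : ∑ i, IA σ a (φ i) * IA σ (mir a) (fun z => ψ i z * XQ (mir a) z.2) =
      IA σ a (fun _ => 1) * IA σ (mir a) (fun z => XQ (mir a) z.2) := by
    have s1 : ∀ i, IA σ a (φ i) * IA σ (mir a) (fun z => ψ i z * XQ (mir a) z.2) =
        ∫ z in Zp (mir a) 2 3, IA σ a (φ i) * (ψ i z * (XQ (mir a) z.2 * rh (mir a) z)) ∂σ := by
      intro i
      rw [integral_const_mul]
      congr 1
      unfold IA
      congr 1
      funext z
      ring
    have i1 : ∀ i, Integrable (fun z => IA σ a (φ i) * (ψ i z * (XQ (mir a) z.2 * rh (mir a) z)))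
        (σ.restrict (Zp (mir a) 2 3)) := fun i =>
      ((int_bd hK hσ (hψ i) (hψb i)
        (((XQ_cont (mir a)).comp continuous_snd).mul r2)).const_mul _).integrableOn
    rw [Finset.sum_congr rfl fun i _ => s1 i, ← integral_finsetSum _ fun i _ => i1 i]
    unfold IA
    rw [← integral_const_mul]
    apply integral_congr_ae
    filter_upwards [hm'] with z hz
    have e : ∀ i, IA σ a (φ i) * (ψ i z * (XQ (mir a) z.2 * rh (mir a) z)) =
        (IA σ a (φ i) * ψ i z) * (XQ (mir a) z.2 * rh (mir a) z) := fun i => by ring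
    unfold IA at e hz
    rw [Finset.sum_congr rfl fun i _ => e i, ← Finset.sum_mul, hz]
  rw [IA_exc h hK hσ, IA_exc (mir_gram h) hK hσ]
  have e3 : IA σ (mir a) (fun z => eX (mir a) z.1 * eX (mir a) z.2) =
      IA σ (mir a) (fun z => eY a z.1 * eY a z.2) := by
    congr 1
    funext z
    rw [mir_eX, mir_eX]
  rw [e3]
  rw [Finset.sum_add_distrib, Finset.sum_add_distrib, Finset.sum_sub_distrib,
    Finset.sum_add_distrib, e1, e2] at key
  rw [Finset.sum_sub_distrib, Finset.sum_sub_distrib]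
  linarith

/-! ### the clean coupling of helper95: two nonnegative densities -/

/-- `|q - q'|² - 1` in terms of the four levels -/
theorem dist_levels (h : Gram4 (al a)) (q q' : E3) : ‖q - q'‖ ^ 2 - 1 =
    (1 / 2 + eX a q') * Qv a 0 q + (1 / 2 - eX a q') * Qv a 1 q +
      (1 / 2 + eY a q) * Qv a 2 q' + (1 / 2 - eY a q) * Qv a 3 q' +
      2 * (eV a q * eW a q') := by
  rw [Qv0_e h, Qv1_e h, Qv2_e h, Qv3_e h, norm_sub_sq_e h, eV_eq h]
  ring

/-- **clean coupling**, any two nonnegative bounded densities -/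
theorem cpl_ab (h : Gram4 (al a)) (hK : IsCompact K) (hd : ∀ x ∈ K, ∀ y ∈ K, ‖x - y‖ ≤ 1)
    (hσ : ∀ᵐ z ∂σ, z.1 ∈ K ∧ z.2 ∈ K) {α β : E3 × E3 → ℝ} {C : ℝ}
    (hα : AEStronglyMeasurable α σ) (hβ : AEStronglyMeasurable β σ)
    (hαb : ∀ᵐ z ∂σ, |α z| ≤ C) (hβb : ∀ᵐ z ∂σ, |β z| ≤ C)
    {A B : Set (E3 × E3)} (hα0 : ∀ᵐ z ∂σ.restrict A, 0 ≤ α z)
    (hβ0 : ∀ᵐ z ∂σ.restrict B, 0 ≤ β z) :
    ((∫ z in B, β z ∂σ) / 2 + ∫ z in B, β z * eX a z.2 ∂σ) * (∫ z in A, α z * Qv a 0 z.2 ∂σ) +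
    ((∫ z in B, β z ∂σ) / 2 - ∫ z in B, β z * eX a z.2 ∂σ) * (∫ z in A, α z * Qv a 1 z.2 ∂σ) +
    ((∫ z in A, α z ∂σ) / 2 + ∫ z in A, α z * eY a z.2 ∂σ) * (∫ z in B, β z * Qv a 2 z.2 ∂σ) +
    ((∫ z in A, α z ∂σ) / 2 - ∫ z in A, α z * eY a z.2 ∂σ) * (∫ z in B, β z * Qv a 3 z.2 ∂σ) +
    2 * ((∫ z in A, α z * eV a z.2 ∂σ) * ∫ z in B, β z * eW a z.2 ∂σ) ≤ 0 := by
  let F : Fin 9 → E3 → ℝ := ![Qv a 0, Qv a 0, Qv a 1, Qv a 1, fun _ => 1, eY a, fun _ => 1, eY a,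
    eV a]
  let G : Fin 9 → E3 → ℝ := ![fun _ => -(1 / 2), fun q => -eX a q, fun _ => -(1 / 2), eX a,
    fun q => -(1 / 2) * Qv a 2 q, fun q => -Qv a 2 q, fun q => -(1 / 2) * Qv a 3 q, Qv a 3,
    fun q => -2 * eW a q]
  have hF : ∀ j, Continuous (F j) := by
    have c0 := Qv_cont a 0
    have c1 := Qv_cont a 1
    have c2 := eY_cont a
    have c3 := eV_cont a
    intro j
    fin_cases j
    exacts [c0, c0, c1, c1, continuous_const, c2, continuous_const, c2, c3]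
  have hG : ∀ j, Continuous (G j) := by
    have c0 := Qv_cont a 2
    have c1 := Qv_cont a 3
    have c2 := eX_cont a
    have c3 := eW_cont a
    intro j
    fin_cases j
    exacts [continuous_const, c2.neg, continuous_const, c2, continuous_const.mul c0, c0.neg,
      continuous_const.mul c1, c1, continuous_const.mul c3]
  have i1 : ∀ (f : E3 → ℝ), Continuous f → Integrable (fun z : E3 × E3 => α z * f z.2) σ :=
    fun f hf => int_bd hK hσ hα hαb (hf.comp continuous_snd)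
  have i2 : ∀ (f : E3 → ℝ), Continuous f → Integrable (fun z : E3 × E3 => β z * f z.2) σ :=
    fun f hf => int_bd hK hσ hβ hβb (hf.comp continuous_snd)
  have key := prod_nn (μ := σ.restrict A) (ν := σ.restrict B)
    (Φ := fun (k : Fin 9) (z : E3 × E3) => α z * F k z.2)
    (Ψ := fun (k : Fin 9) (z : E3 × E3) => β z * G k z.2)
    (fun k => (i1 _ (hF k)).integrableOn) (fun k => (i2 _ (hG k)).integrableOn) ?_
  · have eα : ∫ z in A, α z * (1 : ℝ) ∂σ = ∫ z in A, α z ∂σ := by simp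
    have m1 : ∀ (c : ℝ) (f : E3 → ℝ), ∫ z in B, β z * (c * f z.2) ∂σ =
        c * ∫ z in B, β z * f z.2 ∂σ := by
      intro c f
      rw [← integral_const_mul]
      congr 1
      funext z
      ring
    have m2 : ∀ (f : E3 → ℝ), ∫ z in B, β z * (-f z.2) ∂σ = -∫ z in B, β z * f z.2 ∂σ := by
      intro f
      rw [← integral_neg]
      congr 1
      funext z
      ring
    have m3 : ∫ z in B, β z * (-(1 / 2) : ℝ) ∂σ = -(1 / 2) * ∫ z in B, β z ∂σ := by
      rw [← integral_const_mul]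
      congr 1
      funext z
      ring
    have e9 : ∑ i : Fin 9, (∫ z in A, α z * F i z.2 ∂σ) * ∫ z in B, β z * G i z.2 ∂σ =
        (∫ z in A, α z * Qv a 0 z.2 ∂σ) * (∫ z in B, β z * (-(1 / 2) : ℝ) ∂σ) +
        (∫ z in A, α z * Qv a 0 z.2 ∂σ) * (∫ z in B, β z * (-eX a z.2) ∂σ) +
        (∫ z in A, α z * Qv a 1 z.2 ∂σ) * (∫ z in B, β z * (-(1 / 2) : ℝ) ∂σ) +
        (∫ z in A, α z * Qv a 1 z.2 ∂σ) * (∫ z in B, β z * eX a z.2 ∂σ) +
        (∫ z in A, α z * (1 : ℝ) ∂σ) * (∫ z in B, β z * (-(1 / 2) * Qv a 2 z.2) ∂σ) +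
        (∫ z in A, α z * eY a z.2 ∂σ) * (∫ z in B, β z * (-Qv a 2 z.2) ∂σ) +
        (∫ z in A, α z * (1 : ℝ) ∂σ) * (∫ z in B, β z * (-(1 / 2) * Qv a 3 z.2) ∂σ) +
        (∫ z in A, α z * eY a z.2 ∂σ) * (∫ z in B, β z * Qv a 3 z.2 ∂σ) +
        (∫ z in A, α z * eV a z.2 ∂σ) * (∫ z in B, β z * (-2 * eW a z.2) ∂σ) := by
      rw [Fin.sum_univ_succ, Fin.sum_univ_eight]
      show (∫ z in A, α z * Qv a 0 z.2 ∂σ) * (∫ z in B, β z * (-(1 / 2) : ℝ) ∂σ) +
        ((∫ z in A, α z * Qv a 0 z.2 ∂σ) * (∫ z in B, β z * (-eX a z.2) ∂σ) +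
        (∫ z in A, α z * Qv a 1 z.2 ∂σ) * (∫ z in B, β z * (-(1 / 2) : ℝ) ∂σ) +
        (∫ z in A, α z * Qv a 1 z.2 ∂σ) * (∫ z in B, β z * eX a z.2 ∂σ) +
        (∫ z in A, α z * (1 : ℝ) ∂σ) * (∫ z in B, β z * (-(1 / 2) * Qv a 2 z.2) ∂σ) +
        (∫ z in A, α z * eY a z.2 ∂σ) * (∫ z in B, β z * (-Qv a 2 z.2) ∂σ) +
        (∫ z in A, α z * (1 : ℝ) ∂σ) * (∫ z in B, β z * (-(1 / 2) * Qv a 3 z.2) ∂σ) +
        (∫ z in A, α z * eY a z.2 ∂σ) * (∫ z in B, β z * Qv a 3 z.2 ∂σ) +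
        (∫ z in A, α z * eV a z.2 ∂σ) * (∫ z in B, β z * (-2 * eW a z.2) ∂σ)) = _
      ring
    rw [e9, eα, m3, m2, m2, m1, m1, m1] at key
    linarith
  · have hσA : ∀ᵐ z ∂σ.restrict A, z.1 ∈ K ∧ z.2 ∈ K := ae_restrict_of_ae hσ
    have hσB : ∀ᵐ z ∂σ.restrict B, z.1 ∈ K ∧ z.2 ∈ K := ae_restrict_of_ae hσ
    filter_upwards [hα0, hσA] with z hz hzK
    filter_upwards [hβ0, hσB] with z' hz' hzK'
    have hq := hd _ hzK.2 _ hzK'.2
    have h1 : ‖z.2 - z'.2‖ ^ 2 - 1 ≤ 0 := by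
      have := norm_nonneg (z.2 - z'.2)
      nlinarith
    rw [dist_levels h] at h1
    have e : ∑ i : Fin 9, α z * F i z.2 * (β z' * G i z'.2) =
        α z * β z' * (-((1 / 2 + eX a z'.2) * Qv a 0 z.2 + (1 / 2 - eX a z'.2) * Qv a 1 z.2 +
          (1 / 2 + eY a z.2) * Qv a 2 z'.2 + (1 / 2 - eY a z.2) * Qv a 3 z'.2 +
          2 * (eV a z.2 * eW a z'.2))) := by
      rw [Fin.sum_univ_succ, Fin.sum_univ_eight]
      show α z * Qv a 0 z.2 * (β z' * (-(1 / 2))) +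
        (α z * Qv a 0 z.2 * (β z' * (-eX a z'.2)) +
        α z * Qv a 1 z.2 * (β z' * (-(1 / 2))) +
        α z * Qv a 1 z.2 * (β z' * eX a z'.2) +
        α z * 1 * (β z' * (-(1 / 2) * Qv a 2 z'.2)) +
        α z * eY a z.2 * (β z' * (-Qv a 2 z'.2)) +
        α z * 1 * (β z' * (-(1 / 2) * Qv a 3 z'.2)) +
        α z * eY a z.2 * (β z' * Qv a 3 z'.2) +
        α z * eV a z.2 * (β z' * (-2 * eW a z'.2))) = _
      ring
    rw [e]
    exact mul_nonneg (mul_nonneg hz hz') (by linarith)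

end int

/-! ### helper95's density -/

/-- the density of the clean coupling: `(1 - 7|x_p|/8)/(4 D)` -/
noncomputable def de (a : Fin 4 → E3) (z : E3 × E3) : ℝ := (1 - 7 / 8 * |eX a z.1|) * rh a z

/-- its mass, its moments in the direction of the opposite edge and in height, its levels -/
noncomputable def d0 (σ : Measure (E3 × E3)) (a : Fin 4 → E3) : ℝ := ∫ z in Zp a 2 3, de a z ∂σ
noncomputable def dY (σ : Measure (E3 × E3)) (a : Fin 4 → E3) : ℝ :=
  ∫ z in Zp a 2 3, de a z * eY a z.2 ∂σ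
noncomputable def dH (σ : Measure (E3 × E3)) (a : Fin 4 → E3) : ℝ :=
  ∫ z in Zp a 2 3, de a z * eV a z.2 ∂σ
noncomputable def dQ (σ : Measure (E3 × E3)) (a : Fin 4 → E3) (i : Fin 4) : ℝ :=
  ∫ z in Zp a 2 3, de a z * Qv a i z.2 ∂σ

theorem de_cont (a : Fin 4 → E3) : Continuous (de a) := by
  unfold de
  exact (continuous_const.sub (continuous_const.mul
    ((eX_cont a).comp continuous_fst).abs)).mul (rh_cont a)

section dens
variable {a : Fin 4 → E3} {K : Set E3} {σ : Measure (E3 × E3)}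

theorem de_nonneg (h : Gram4 (al a)) {z : E3 × E3} (hz : Pl a z.1) : 0 ≤ de a z := by
  obtain ⟨_, h1, _⟩ := pl_e h hz
  unfold de
  exact mul_nonneg (by linarith) (rh_pos a z).le

theorem de_le_one (z : E3 × E3) (_h1 : 0 ≤ 1 - 7 / 8 * |eX a z.1|) : de a z ≤ 1 := by
  have h2 := abs_nonneg (eX a z.1)
  unfold de
  calc (1 - 7 / 8 * |eX a z.1|) * rh a z ≤ 1 * 1 :=
        mul_le_mul (by linarith) (rh_le_one a z) (rh_pos a z).le (by norm_num)
    _ = 1 := one_mul 1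

/-- `de` and the two weights: `wt_0 = de/2 + (7/8) x⁺/(4D)`, `wt_1 = de/2 + (7/8) x⁻/(4D)` -/
theorem wt_de (z : E3 × E3) :
    wt a false z.1 = de a z / 2 + 7 / 8 * pp (eX a z.1) * rh a z ∧
    wt a true z.1 = de a z / 2 + 7 / 8 * pp (-eX a z.1) * rh a z := by
  have e0 : wt a false z.1 = (1 / 2 + 7 * eX a z.1 / 16) * rh a z := by
    unfold wt rh
    simp only [Bool.false_eq_true, if_false]
    rw [div_eq_mul_inv]
  have e1 : wt a true z.1 = (1 / 2 - 7 * eX a z.1 / 16) * rh a z := by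
    unfold wt rh
    simp only [if_true]
    rw [div_eq_mul_inv]
    congr 1
  rw [e0, e1]
  unfold de pp
  rcases le_total 0 (eX a z.1) with h | h
  · rw [abs_of_nonneg h, max_eq_left h, max_eq_right (by linarith)]
    constructor <;> ring
  · rw [abs_of_nonpos h, max_eq_right h, max_eq_left (by linarith)]
    constructor <;> ring

/-- **the product inequality of helper95** -/
theorem cpl95 [IsFiniteMeasure σ] (h : Gram4 (al a)) (hK : IsCompact K)
    (hd : ∀ x ∈ K, ∀ y ∈ K, ‖x - y‖ ≤ 1) (hp : ∀ x ∈ K, Pl a x)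
    (hσ : ∀ᵐ z ∂σ, z.1 ∈ K ∧ z.2 ∈ K) :
    (d0 σ (mir a) / 2 + dY σ (mir a)) * dQ σ a 0 + (d0 σ (mir a) / 2 - dY σ (mir a)) * dQ σ a 1 +
      (d0 σ a / 2 + dY σ a) * dQ σ (mir a) 0 + (d0 σ a / 2 - dY σ a) * dQ σ (mir a) 1 +
      2 * (dH σ a * dH σ (mir a)) ≤ 0 := by
  have hg := mir_gram h
  have n1 : ∀ᵐ z ∂σ, 0 ≤ de a z ∧ |de a z| ≤ 1 := by
    filter_upwards [hσ] with z hz
    have h0 := de_nonneg h (hp _ hz.1)
    obtain ⟨_, h1, _⟩ := pl_e h (hp _ hz.1)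
    refine ⟨h0, ?_⟩
    rw [abs_of_nonneg h0]
    exact de_le_one z (by linarith)
  have n2 : ∀ᵐ z ∂σ, 0 ≤ de (mir a) z ∧ |de (mir a) z| ≤ 1 := by
    filter_upwards [hσ] with z hz
    have hpm := Pool.Agent.Helper95.MEI.Fub.mir_Pl (hp _ hz.1)
    have h0 := de_nonneg hg hpm
    obtain ⟨_, h1, _⟩ := pl_e hg hpm
    refine ⟨h0, ?_⟩
    rw [abs_of_nonneg h0]
    exact de_le_one z (by linarith)
  have key := cpl_ab (A := Zp a 2 3) (B := Zp (mir a) 2 3) (C := 1) h hK hd hσ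
    (de_cont a).aestronglyMeasurable (de_cont (mir a)).aestronglyMeasurable
    (n1.mono fun z hz => hz.2) (n2.mono fun z hz => hz.2)
    (ae_restrict_of_ae (n1.mono fun z hz => hz.1)) (ae_restrict_of_ae (n2.mono fun z hz => hz.1))
  have e1 : dY σ (mir a) = ∫ z in Zp (mir a) 2 3, de (mir a) z * eX a z.2 ∂σ := by
    unfold dY
    congr 1
    funext z
    rw [mir_eY]
  have e2 : dH σ (mir a) = ∫ z in Zp (mir a) 2 3, de (mir a) z * eW a z.2 ∂σ := by
    unfold dH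
    congr 1
    funext z
    rw [mir_eV]
  rw [e1, e2]
  exact key

end dens

/-! ### the pairs `(m, false), (m, true)` -/

theorem ap_mir (a : Fin 4 → E3) (m : Fin 3) : ap a m true = mir (ap a m false) := by
  funext i
  fin_cases m <;> fin_cases i <;> rfl

theorem mir_mir (a : Fin 4 → E3) : mir (mir a) = a := by
  funext i
  fin_cases i <;> rfl

theorem ap_mir' (a : Fin 4 → E3) (m : Fin 3) : ap a m false = mir (ap a m true) := by
  rw [ap_mir, mir_mir]

theorem ap_mir_e (a : Fin 4 → E3) (m : Fin 3) (e : Bool) : ap a m (!e) = mir (ap a m e) := by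
  cases e
  · exact ap_mir a m
  · exact ap_mir' a m

end Helper49.Cpl
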