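import Pool.Agent.Helper49.MEI.Cpl

/-!
# Project MEI (M2), TEAM TC: the pair of opposite edges with the reduced densities

`wp` = the part `(7/8) x⁺/(4D)` of the weight of a vertex (`x⁺` towards the vertex),
`wk κ = (1 - κ) wt + κ wp`.  `te_pair`: with `κ = m/M`, `m` = the four numbers of the other cell,
the sum of the two excess integrals is at least minus the four levels of the densities `wk κ`.
-/

set_option autoImplicit false

namespace Helper49.Cpl

open Set Metric MeasureTheory Helper80.CW Helper14.CW Helper14.MEI2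
open Helper93.MEI Helper37.MEI Helper41.MEI Helper78.MEI
open Helper22.Sgn (gL TE_sgn)
open Pool.Agent.Helper8.MEI (DD DD_pos DD_ge)
open Pool.Agent.Helper73.MEI (PM TE TE_exc pf pr pr_apply pf_bij)
open Pool.Agent.Helper95.MEI.Fub (Zp exc exc_cont eX_cont eY_cont eW_cont Qv_cont pp_cont
  DDe_cont int_cont Zp_meas mir mir_gram mir_eX mir_eY mir_eW mir_eV mir_Zp mir_perm)
open scoped RealInnerProductSpace Real

/-- the part of the weight which the coupling does not remove -/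
noncomputable def wp (a : Fin 4 → E3) (i : Bool) (x : E3) : ℝ :=
  7 / 8 * pp (if i then -eX a x else eX a x) / (4 * DD (eX a x) (eY a x) (eW a x))

/-- the reduced weight -/
noncomputable def wk (κ : ℝ) (a : Fin 4 → E3) (i : Bool) (x : E3) : ℝ :=
  (1 - κ) * wt a i x + κ * wp a i x

section pt
variable {a : Fin 4 → E3}

theorem wp_nonneg (a : Fin 4 → E3) (i : Bool) (x : E3) : 0 ≤ wp a i x := by
  have hD := DD_pos (eX a x) (eY a x) (eW a x)
  have := pp_nonneg (if i then -eX a x else eX a x)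
  unfold wp
  positivity

theorem wp_cont (a : Fin 4 → E3) (i : Bool) : Continuous (wp a i) := by
  have h1 := eX_cont a
  have h2 := eY_cont a
  have h3 := eW_cont a
  have h4 := pp_cont
  unfold wp
  refine Continuous.div ?_ ?_ fun x => ?_
  · refine continuous_const.mul (h4.comp ?_)
    cases i
    · exact h1
    · exact h1.neg
  · unfold DD
    fun_prop
  · have := DD_pos (eX a x) (eY a x) (eW a x)
    positivity

theorem wk_cont (κ : ℝ) (a : Fin 4 → E3) (i : Bool) : Continuous (wk κ a i) :=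
  (continuous_const.mul (wt_cont a i)).add (continuous_const.mul (wp_cont a i))

/-- `wt = de/2 + wp` -/
theorem wt_wp (i : Bool) (z : E3 × E3) : wt a i z.1 = de a z / 2 + wp a i z.1 := by
  obtain ⟨h0, h1⟩ := wt_de (a := a) z
  have e : ∀ y : ℝ, 7 / 8 * y * rh a z = 7 / 8 * y / (4 * DD (eX a z.1) (eY a z.1) (eW a z.1)) := by
    intro y
    exact (div_eq_mul_inv _ _).symm
  cases i
  · rw [h0, e]
    unfold wp
    simp
  · rw [h1, e]
    unfold wp
    simp

theorem wk_de (κ : ℝ) (i : Bool) (z : E3 × E3) :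
    wk κ a i z.1 = wt a i z.1 - κ * (de a z / 2) := by
  unfold wk
  rw [wt_wp]
  ring

theorem wp_le (h : Gram4 (al a)) (i : Bool) {x : E3} (hx : Pl a x) : wp a i x ≤ wt a i x := by
  have h1 := wt_wp (a := a) i (x, x)
  have h2 := de_nonneg h (z := (x, x)) hx
  have h3 : wt a i x = de a (x, x) / 2 + wp a i x := h1
  linarith

theorem wk_nonneg (h : Gram4 (al a)) {κ : ℝ} (h0 : 0 ≤ κ) (h1 : κ ≤ 1) (i : Bool) {x : E3}
    (hx : Pl a x) : 0 ≤ wk κ a i x :=
  add_nonneg (mul_nonneg (by linarith) (wt_nonneg h i hx)) (mul_nonneg h0 (wp_nonneg a i x))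

theorem wk_anti (h : Gram4 (al a)) {κ κ' : ℝ} (h1 : κ ≤ κ') (i : Bool) {x : E3}
    (hx : Pl a x) : wk κ' a i x ≤ wk κ a i x := by
  have := mul_le_mul_of_nonneg_left (wp_le h i hx) (sub_nonneg.2 h1)
  unfold wk
  linarith

theorem wk_zero (a : Fin 4 → E3) (i : Bool) (x : E3) : wk 0 a i x = wt a i x := by
  unfold wk
  ring

theorem wk_le (h : Gram4 (al a)) {κ : ℝ} (h0 : 0 ≤ κ) (i : Bool) {x : E3} (hx : Pl a x) :
    wk κ a i x ≤ wt a i x := by
  have := wk_anti h h0 i hx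
  rwa [wk_zero] at this

end pt

/-! ### the pair -/

section defs
variable (σ : Measure (E3 × E3)) (a : Fin 4 → E3)

/-- the signed level of the reduced density -/
noncomputable def gK (κ : ℝ) (m : Fin 3) (e i : Bool) : ℝ :=
  ∫ z in EE a m e, wk κ (ap a m e) i z.1 * Qv a (vx m e i) z.2 ∂σ

/-- the positive part -/
noncomputable def gKp (κ : ℝ) (m : Fin 3) (e i : Bool) : ℝ :=
  ∫ z in EE a m e, wk κ (ap a m e) i z.1 * pp (Qv a (vx m e i) z.2) ∂σ

/-- the four numbers of a pair: mass times (1/2 + coordinate towards the vertex), other cell -/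
noncomputable def mv (m : Fin 3) (e i : Bool) : ℝ :=
  d0 σ (ap a m (!e)) / 2 + (if i then -dY σ (ap a m (!e)) else dY σ (ap a m (!e)))

end defs

section pair
variable {a : Fin 4 → E3} {K : Set E3} {σ : Measure (E3 × E3)} [IsFiniteMeasure σ]

theorem Qv_ap (a : Fin 4 → E3) (m : Fin 3) (e : Bool) :
    Qv (ap a m e) 0 = Qv a (vx m e false) ∧ Qv (ap a m e) 1 = Qv a (vx m e true) :=
  ⟨rfl, rfl⟩

/-- `gL = dQ/2 + level of wp`, `gK = gL - κ dQ/2` -/
theorem gK_eq (hK : IsCompact K) (hσ : ∀ᵐ z ∂σ, z.1 ∈ K ∧ z.2 ∈ K) (κ : ℝ) (m : Fin 3)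
    (e i : Bool) : gK σ a κ m e i = gL σ a m e i -
      κ / 2 * dQ σ (ap a m e) (if i then 1 else 0) := by
  have hQ : Qv (ap a m e) (if i then 1 else 0) = Qv a (vx m e i) := by
    cases i
    · exact (Qv_ap a m e).1
    · exact (Qv_ap a m e).2
  have c1 : Continuous fun z : E3 × E3 => wt (ap a m e) i z.1 * Qv a (vx m e i) z.2 :=
    ((wt_cont (ap a m e) i).comp continuous_fst).mul ((Qv_cont a (vx m e i)).comp continuous_snd)
  have c2 : Continuous fun z : E3 × E3 => κ / 2 * (de (ap a m e) z * Qv a (vx m e i) z.2) :=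
    continuous_const.mul ((de_cont (ap a m e)).mul ((Qv_cont a (vx m e i)).comp continuous_snd))
  unfold gK gL dQ
  rw [hQ, ← integral_const_mul]
  have hE : EE a m e = Zp (ap a m e) 2 3 := rfl
  rw [← hE, ← integral_sub (int_cont hK hσ c1).integrableOn (int_cont hK hσ c2).integrableOn]
  congr 1
  funext z
  rw [wk_de]
  ring

/-- **(b) the pair of opposite edges**: signed levels of the reduced densities -/
theorem te_pair (hP : PM K σ) (ha : ∀ i j, i ≠ j → dist (a i) (a j) = 1)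
    (hd : ∀ x ∈ K, ∀ y ∈ K, ‖x - y‖ ≤ 1) (hp : ∀ x ∈ K, Pl a x) (m : Fin 3)
    {B : Bool → OrthonormalBasis (Fin 3) ℝ E3} (hB : ∀ e, Fr (ap a m e) (B e)) {M : ℝ}
    (hM : 0 < M) :
    -(∑ e, ∑ i, gK σ a (mv σ a m e i / M) m e i) +
      dH σ (ap a m false) * dH σ (ap a m true) / M ≤
    TE (B false) (cen a) σ + TE (B true) (cen a) σ := by
  have hg : Gram4 (al (ap a m false)) := gram_of_dist (hap ha m false)
  have hpl : ∀ x ∈ K, Pl (ap a m false) x := fun x hx => Pl_perm (pr m false) (hp x hx)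
  have key := cpl95 hg hP.cpt hd hpl hP.mem
  rw [← ap_mir a m] at key
  rw [TE_sgn hP ha m false (hB false), TE_sgn hP ha m true (hB true)]
  simp only [Fintype.sum_bool]
  rw [gK_eq hP.cpt hP.mem, gK_eq hP.cpt hP.mem, gK_eq hP.cpt hP.mem, gK_eq hP.cpt hP.mem]
  unfold mv
  simp only [Bool.not_false, Bool.not_true, if_true, Bool.false_eq_true, if_false]
  set A0 := d0 σ (ap a m false)
  set AY := dY σ (ap a m false)
  set B0 := d0 σ (ap a m true)
  set BY := dY σ (ap a m true)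
  set HA := dH σ (ap a m false)
  set HB := dH σ (ap a m true)
  set q0 := dQ σ (ap a m false) 0
  set q1 := dQ σ (ap a m false) 1
  set q2 := dQ σ (ap a m true) 0
  set q3 := dQ σ (ap a m true) 1
  have e : (B0 / 2 + BY) / M / 2 * q0 + (B0 / 2 + -BY) / M / 2 * q1 +
      ((A0 / 2 + AY) / M / 2 * q2 + (A0 / 2 + -AY) / M / 2 * q3) + HA * HB / M =
      ((B0 / 2 + BY) * q0 + (B0 / 2 - BY) * q1 + (A0 / 2 + AY) * q2 + (A0 / 2 - AY) * q3 +
        2 * (HA * HB)) / M / 2 := by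
    field_simp
    ring
  have k : ((B0 / 2 + BY) * q0 + (B0 / 2 - BY) * q1 + (A0 / 2 + AY) * q2 + (A0 / 2 - AY) * q3 +
        2 * (HA * HB)) / M / 2 ≤ 0 := by
    apply div_nonpos_of_nonpos_of_nonneg _ (by norm_num)
    exact div_nonpos_of_nonpos_of_nonneg key hM.le
  rw [← e] at k
  linarith

theorem gK_le_gKp (ha : ∀ i j, i ≠ j → dist (a i) (a j) = 1) (hK : IsCompact K)
    (hp : ∀ x ∈ K, Pl a x) (hσ : ∀ᵐ z ∂σ, z.1 ∈ K ∧ z.2 ∈ K) {κ κ' : ℝ} (h0 : 0 ≤ κ')
    (h1 : κ' ≤ κ) (h2 : κ ≤ 1) (m : Fin 3) (e i : Bool) :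
    gK σ a κ m e i ≤ gKp σ a κ' m e i := by
  have hg : Gram4 (al (ap a m e)) := gram_of_dist (hap ha m e)
  have c1 : Continuous fun z : E3 × E3 => wk κ (ap a m e) i z.1 * Qv a (vx m e i) z.2 :=
    ((wk_cont κ (ap a m e) i).comp continuous_fst).mul
      ((Qv_cont a (vx m e i)).comp continuous_snd)
  have c2 : Continuous fun z : E3 × E3 => wk κ' (ap a m e) i z.1 * pp (Qv a (vx m e i) z.2) :=
    ((wk_cont κ' (ap a m e) i).comp continuous_fst).mul
      (pp_cont.comp ((Qv_cont a (vx m e i)).comp continuous_snd))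
  unfold gK gKp
  refine integral_mono_ae (int_cont hK hσ c1).integrableOn (int_cont hK hσ c2).integrableOn ?_
  filter_upwards [ae_restrict_of_ae hσ] with z hz
  have hx : Pl (ap a m e) z.1 := Pl_perm (pr m e) (hp _ hz.1)
  have k0 := wk_nonneg hg (h0.trans h1) h2 i hx
  have k1 := wk_anti hg h1 i hx
  calc wk κ (ap a m e) i z.1 * Qv a (vx m e i) z.2
      ≤ wk κ (ap a m e) i z.1 * pp (Qv a (vx m e i) z.2) :=
        mul_le_mul_of_nonneg_left (le_pp _) k0
    _ ≤ wk κ' (ap a m e) i z.1 * pp (Qv a (vx m e i) z.2) :=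
        mul_le_mul_of_nonneg_right k1 (pp_nonneg _)

/-- **(b) with positive levels and lower bounds of the four fractions** -/
theorem te_pair_pp (hP : PM K σ) (ha : ∀ i j, i ≠ j → dist (a i) (a j) = 1)
    (hd : ∀ x ∈ K, ∀ y ∈ K, ‖x - y‖ ≤ 1) (hp : ∀ x ∈ K, Pl a x) (m : Fin 3)
    {B : Bool → OrthonormalBasis (Fin 3) ℝ E3} (hB : ∀ e, Fr (ap a m e) (B e)) {M : ℝ}
    (hM : 0 < M) {κ : Bool → Bool → ℝ} (h0 : ∀ e i, 0 ≤ κ e i)
    (h1 : ∀ e i, κ e i * M ≤ mv σ a m e i) (h2 : ∀ e i, mv σ a m e i ≤ M) :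
    -(∑ e, ∑ i, gKp σ a (κ e i) m e i) +
      dH σ (ap a m false) * dH σ (ap a m true) / M ≤
    TE (B false) (cen a) σ + TE (B true) (cen a) σ := by
  have key := te_pair hP ha hd hp m hB hM
  have h : ∑ e, ∑ i, gK σ a (mv σ a m e i / M) m e i ≤ ∑ e, ∑ i, gKp σ a (κ e i) m e i := by
    refine Finset.sum_le_sum fun e _ => Finset.sum_le_sum fun i _ => ?_
    refine gK_le_gKp ha hP.cpt hp hP.mem (h0 e i) ?_ ?_ m e i
    · rw [le_div_iff₀ hM]
      exact h1 e i
    · rw [div_le_one hM]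
      exact h2 e i
  linarith

end pair

end Helper49.Cpl
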