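import Mathlib

/-!
# Project MEI (M2), TEAM TC: the height term, real variables

`x, Y` = coordinates of the point `q` along its own and along the opposite edge, `u = -√2 h ≥ 0`
its depth, `n` = minus the mean level.  `hp_real`: the reduced gain of `q` pays the height term for
`κ ≤ 1/2` and levels `≤ .12`.
-/

set_option autoImplicit false

namespace Helper49.HReal

/-- cone `u ≤ 11 x/8` -/
theorem n_low1 {x y u n : ℝ} (hx : 0 ≤ x) (hu : 0 ≤ u) (hy : 0 ≤ y) (hx2 : x ≤ 1 / 2)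
    (hn : n = 1 / 4 - y ^ 2 - x ^ 2 + u - u ^ 2 / 2) (hy2 : y ≤ 1 / 2) (hC : x + y ≤ 1 / 2 + u)
    (hA : x - 0.12 ≤ n) (hc : u ≤ 11 / 8 * x) :
    0.487 * (x - 8 / 11 * u) + 0.578 * (8 / 11 * u) ≤ n := by
  rcases le_or_gt (0.2335 + 0.13 * u) x with h | h
  · nlinarith
  · rcases le_or_gt u x with h1 | h1
    · have hw : y ≤ 1 / 2 - (x - u) := by linarith
      have hw0 : 0 ≤ x - u := by linarith
      have k1 : y ^ 2 ≤ (1 / 2 - (x - u)) ^ 2 := by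
        apply pow_le_pow_left₀ hy hw
      have k2 : x - 2 * x ^ 2 + 2 * x * u - 3 / 2 * u ^ 2 ≤ n := by nlinarith
      have k3 : 0 ≤ 0.513 * x - 0.0662 * u - 2 * x ^ 2 + 2 * x * u - 3 / 2 * u ^ 2 := by
        rcases le_or_gt u (0.08 : ℝ) with h2 | h2
        · nlinarith [mul_nonneg hx hu, mul_nonneg hu hw0, mul_nonneg hx hw0]
        · nlinarith [mul_nonneg hx hu, mul_nonneg hu hw0, mul_nonneg hx hw0]
      nlinarith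
    · have k1 : y ^ 2 ≤ (1 / 2 : ℝ) ^ 2 := pow_le_pow_left₀ hy hy2 2
      have k2 : u - u ^ 2 / 2 - x ^ 2 ≤ n := by nlinarith
      have k3 : 0 ≤ 0.9338 * u - u ^ 2 / 2 - 0.487 * x - x ^ 2 := by
        nlinarith
      nlinarith

/-- cone `u ≥ 11 x/8` -/
theorem n_low2 {x y u n : ℝ} (hx : 0 ≤ x) (hu : 0 ≤ u) (hy : 0 ≤ y) (hx2 : x ≤ 1 / 2)
    (hn : n = 1 / 4 - y ^ 2 - x ^ 2 + u - u ^ 2 / 2) (hy2 : y ≤ 1 / 2) (hD : x + y ≤ 3 / 2 - u)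
    (hA : x - 0.12 ≤ n) (hc : 11 / 8 * x ≤ u) :
    0.578 * x + 0.2825 * (u - 11 / 8 * x) ≤ n := by
  rcases le_or_gt (0.56 : ℝ) u with h | h
  · rcases le_or_gt u (0.76 : ℝ) with h1 | h1
    · rcases le_or_gt (0.1481 + 0.3487 * u) x with h2 | h2
      · nlinarith
      · have k1 : y ^ 2 ≤ (1 / 2 : ℝ) ^ 2 := pow_le_pow_left₀ hy hy2 2
        have k2 : u - u ^ 2 / 2 - x ^ 2 ≤ n := by nlinarith
        have k3 : 0 ≤ 0.7175 * u - u ^ 2 / 2 - 0.1896 * x - x ^ 2 := by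
          nlinarith
        nlinarith
    · rcases le_or_gt u (1 : ℝ) with h3 | h3
      · rcases le_or_gt x (0.1 : ℝ) with h2 | h2
        · have k1 : y ^ 2 ≤ (1 / 2 : ℝ) ^ 2 := pow_le_pow_left₀ hy hy2 2
          have k2 : u - u ^ 2 / 2 - x ^ 2 ≤ n := by nlinarith
          nlinarith
        · have k1 : y ^ 2 ≤ (3 / 2 - u - x) ^ 2 := by
            apply pow_le_pow_left₀ hy (by linarith)
          have k3 : 0 ≤ 1 / 4 - (3 / 2 - u - x) ^ 2 - x ^ 2 + u - u ^ 2 / 2 - 0.1896 * x -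
              0.2825 * u := by
            nlinarith [mul_nonneg (sub_nonneg.2 h1.le) (sub_nonneg.2 h3),
              mul_nonneg (sub_nonneg.2 h2.le) (sub_nonneg.2 hx2)]
          nlinarith
      · have k1 : x ^ 2 + y ^ 2 ≤ (3 / 2 - u) ^ 2 := by nlinarith [mul_nonneg hx hy]
        have k2 : -2 + 4 * u - 3 / 2 * u ^ 2 ≤ n := by nlinarith
        have k4 : u ≤ 3 / 2 := by linarith
        nlinarith
  · have k1 : y ^ 2 ≤ (1 / 2 : ℝ) ^ 2 := pow_le_pow_left₀ hy hy2 2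
    have k2 : u - u ^ 2 / 2 - x ^ 2 ≤ n := by nlinarith
    have k3 : 0 ≤ 0.7175 * u - u ^ 2 / 2 - 0.1896 * x - x ^ 2 := by
      nlinarith [mul_nonneg hx hu, mul_nonneg hx (sub_nonneg.2 hc)]
    nlinarith

/-- the three rays -/
theorem f_ray {t κ0 κ1 φ η : ℝ} (hφ : φ = 15 / 16 * (1 - 4 * t ^ 2)) (ht : |t| ≤ 1 / 2)
    (h0 : 0 ≤ κ0) (h0' : κ0 ≤ 1 / 2) (h1 : 0 ≤ κ1) (h1' : κ1 ≤ 1 / 2) (_hη : 0 ≤ η)
    (hη' : η ≤ 0.1596) :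
    -0.487 * (1 - (κ0 + κ1) * φ / 2) - 7 * t / 8 + (κ0 - κ1) * φ / 2 ≤ 0 ∧
    -0.578 * (1 - (κ0 + κ1) * φ / 2) - 7 * t / 8 + (κ0 - κ1) * φ / 2 +
      11 / 8 * ((κ0 + κ1) * φ * η) ≤ 0 ∧
    -0.2825 * (1 - (κ0 + κ1) * φ / 2) + (κ0 + κ1) * φ * η ≤ 0 := by
  have htt := abs_le.1 ht
  have hφ0 : 0 ≤ φ := by
    rw [hφ]
    nlinarith
  have hφ1 : φ ≤ 15 / 16 := by
    rw [hφ]
    nlinarith [sq_nonneg t]
  have a0 : κ0 * φ ≤ φ / 2 := by nlinarith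
  have a1 : κ1 * φ ≤ φ / 2 := by nlinarith
  have b0 : 0 ≤ κ0 * φ := mul_nonneg h0 hφ0
  have b1 : 0 ≤ κ1 * φ := mul_nonneg h1 hφ0
  have c0 : κ0 * φ * η ≤ κ0 * φ * 0.1596 := mul_le_mul_of_nonneg_left hη' b0
  have c1 : κ1 * φ * η ≤ κ1 * φ * 0.1596 := mul_le_mul_of_nonneg_left hη' b1
  refine ⟨?_, ?_, ?_⟩
  · have k : 0.37175 * φ - 0.487 - 7 * t / 8 ≤ 0 := by
      rw [hφ]
      nlinarith [sq_nonneg (t + 0.314)]
    nlinarith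
  · have k : 0.50845 * φ - 0.578 - 7 * t / 8 ≤ 0 := by
      rw [hφ]
      nlinarith [sq_nonneg (t + 0.2295)]
    nlinarith
  · nlinarith

/-- **the height term is paid**, `x ≥ 0` -/
theorem hp_real0 {x y u n t κ0 κ1 φ η : ℝ} (hx : 0 ≤ x) (hu : 0 ≤ u) (hy : 0 ≤ y)
    (hx2 : x ≤ 1 / 2) (hn : n = 1 / 4 - y ^ 2 - x ^ 2 + u - u ^ 2 / 2) (hy2 : y ≤ 1 / 2)
    (hC : x + y ≤ 1 / 2 + u) (hD : x + y ≤ 3 / 2 - u) (hA : x - 0.12 ≤ n)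
    (hφ : φ = 15 / 16 * (1 - 4 * t ^ 2)) (ht : |t| ≤ 1 / 2)
    (h0 : 0 ≤ κ0) (h0' : κ0 ≤ 1 / 2) (h1 : 0 ≤ κ1) (h1' : κ1 ≤ 1 / 2) (hη : 0 ≤ η)
    (hη' : η ≤ 0.1596) :
    -n - 7 * t / 8 * x + κ0 * φ * (n + x) / 2 + κ1 * φ * (n - x) / 2 +
      (κ0 + κ1) * φ * η * u ≤ 0 := by
  obtain ⟨f1, f2, f3⟩ := f_ray hφ ht h0 h0' h1 h1' hη hη'
  have htt := abs_le.1 ht
  have hφ0 : 0 ≤ φ := by
    rw [hφ]
    nlinarith
  have hφ1 : φ ≤ 15 / 16 := by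
    rw [hφ]
    nlinarith [sq_nonneg t]
  have hP : 0 ≤ 1 - (κ0 + κ1) * φ / 2 := by nlinarith
  rcases le_or_gt u (11 / 8 * x) with hc | hc
  · have hl := n_low1 hx hu hy hx2 hn hy2 hC hA hc
    have k1 := mul_le_mul_of_nonneg_left hl hP
    have g1 : 0 ≤ x - 8 / 11 * u := by linarith
    have g2 : 0 ≤ 8 / 11 * u := by linarith
    have m1 := mul_nonpos_of_nonneg_of_nonpos g1 f1
    have m2 := mul_nonpos_of_nonneg_of_nonpos g2 f2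
    nlinarith
  · have hl := n_low2 hx hu hy hx2 hn hy2 hD hA hc.le
    have k1 := mul_le_mul_of_nonneg_left hl hP
    have g2 : 0 ≤ u - 11 / 8 * x := by linarith
    have m1 := mul_nonpos_of_nonneg_of_nonpos hx f2
    have m2 := mul_nonpos_of_nonneg_of_nonpos g2 f3
    nlinarith

/-- **the height term is paid** -/
theorem hp_real {X Y u n t κ0 κ1 φ η : ℝ} (hu : 0 ≤ u) (hX : |X| ≤ 1 / 2)
    (hn : n = 1 / 4 - Y ^ 2 - X ^ 2 + u - u ^ 2 / 2) (hY : |Y| ≤ 1 / 2)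
    (hC : |X| + |Y| ≤ 1 / 2 + u) (hD : |X| + |Y| ≤ 3 / 2 - u) (hA : |X| - 0.12 ≤ n)
    (hφ : φ = 15 / 16 * (1 - 4 * t ^ 2)) (ht : |t| ≤ 1 / 2)
    (h0 : 0 ≤ κ0) (h0' : κ0 ≤ 1 / 2) (h1 : 0 ≤ κ1) (h1' : κ1 ≤ 1 / 2) (hη : 0 ≤ η)
    (hη' : η ≤ 0.1596) :
    -n - 7 * t / 8 * X + κ0 * φ * (n + X) / 2 + κ1 * φ * (n - X) / 2 +
      (κ0 + κ1) * φ * η * u ≤ 0 := by
  have hn' : n = 1 / 4 - |Y| ^ 2 - |X| ^ 2 + u - u ^ 2 / 2 := by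
    rw [sq_abs, sq_abs]
    exact hn
  rcases le_total 0 X with h | h
  · have k := hp_real0 (abs_nonneg X) hu (abs_nonneg Y) hX hn' hY hC hD hA hφ ht h0 h0' h1 h1'
      hη hη'
    rwa [abs_of_nonneg h] at k
  · have ht' : |(-t)| ≤ 1 / 2 := by rwa [abs_neg]
    have hφ' : φ = 15 / 16 * (1 - 4 * (-t) ^ 2) := by
      rw [hφ]
      ring
    have k := hp_real0 (abs_nonneg X) hu (abs_nonneg Y) hX hn' hY hC hD hA hφ' ht' h1 h1' h0 h0'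
      hη hη'
    rw [abs_of_nonpos h] at k
    nlinarith

end Helper49.HReal
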