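import Pool.Agent.Helper49.MEI.Cpl3
import Pool.Agent.Helper49.MEI.HReal

/-!
# Project MEI (M2), TEAM TC: the coupling of a pair without height term

`te_pair_h`: profile `ph22`, `κ = m/M ≤ 1/2`, levels `≤ .12`: for every majorant `L e ≥ 0` of the
reduced signed level of the cell `e`, the two excess integrals are at least `-∑ ∫ L e`.  A negative
height product is paid by the points below the opposite edge (`hpt`).
-/

set_option autoImplicit false

namespace Helper49.Cpl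

open Set Metric MeasureTheory Helper80.CW Helper14.CW Helper14.MEI2
open Helper93.MEI Helper37.MEI Helper41.MEI Helper78.MEI
open Helper22.Sgn (gL TE_sgn)
open Pool.Agent.Helper8.MEI (DD DD_pos DD_ge)
open Pool.Agent.Helper73.MEI (PM TE TE_exc pf pr pr_apply pf_bij)
open Pool.Agent.Helper95.MEI.Fub (Zp exc exc_cont eX_cont eY_cont eW_cont Qv_cont pp_cont
  DDe_cont int_cont Zp_meas mir mir_gram mir_eX mir_eY mir_eW mir_eV mir_Zp mir_perm mir_Pl)
open Helper49.HReal (hp_real)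
open scoped RealInnerProductSpace Real

theorem sqrt2_lb : (1.41421 : ℝ) ≤ √2 := by
  apply Real.le_sqrt_of_sq_le
  norm_num

section pt
variable {a : Fin 4 → E3}

/-- levels by the heights: `Q_0 = -n - x`, `Q_1 = -n + x` -/
theorem Qv_n (h : Gram4 (al a)) (q : E3) :
    Qv a 0 q = -(1 / 4 - eY a q ^ 2 - eX a q ^ 2 + (-(√2 * eV a q)) - (-(√2 * eV a q)) ^ 2 / 2) -
      eX a q ∧
    Qv a 1 q = -(1 / 4 - eY a q ^ 2 - eX a q ^ 2 + (-(√2 * eV a q)) - (-(√2 * eV a q)) ^ 2 / 2) +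
      eX a q := by
  have e : eW a q = -eV a q - √2 / 2 := by
    have := eV_eq h q
    linarith
  constructor
  · rw [Qv0_e h, e]
    linear_combination (1 / 4 - eV a q ^ 2 / 2) * s2s
  · rw [Qv1_e h, e]
    linear_combination (1 / 4 - eV a q ^ 2 / 2) * s2s

/-- upper bound of the height -/
theorem eV_le (h : Gram4 (al a)) {q : E3} (h0 : Qv a 0 q ≤ 0.12) (h1 : Qv a 1 q ≤ 0.12) :
    eV a q ≤ 0.2257 := by
  obtain ⟨e0, e1⟩ := Qv_n h q
  have hs := sqrt2_lb
  have hs2 := s2s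
  by_contra hc
  push Not at hc
  have k1 : 1.41421 * 0.2257 ≤ √2 * eV a q :=
    mul_le_mul hs hc.le (by norm_num) (Real.sqrt_nonneg 2)
  have k2 : (-(√2 * eV a q)) ^ 2 = 2 * eV a q ^ 2 := by
    linear_combination eV a q ^ 2 * hs2
  rw [k2] at e0 e1
  nlinarith [sq_nonneg (eX a q), sq_nonneg (eY a q)]

/-- **a point below the opposite edge pays the height term** -/
theorem hpt (h : Gram4 (al a)) {z : E3 × E3} (hz : Pl a z.1) (hq : Pl a z.2)
    (hQ0 : Qv a 0 z.2 ≤ 0.12) (hQ1 : Qv a 1 z.2 ≤ 0.12) {κ0 κ1 lam : ℝ}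
    (h0 : 0 ≤ κ0) (h0' : κ0 ≤ 1 / 2) (h1 : 0 ≤ κ1) (h1' : κ1 ≤ 1 / 2)
    (hl : lam ≤ 0.2257 * (κ0 + κ1)) (hneg : eV a z.2 ≤ 0) :
    (wt a false z.1 - κ0 / 2 * dp ph22 a z) * Qv a 0 z.2 +
      (wt a true z.1 - κ1 / 2 * dp ph22 a z) * Qv a 1 z.2 -
      lam * (dp ph22 a z * eV a z.2) ≤ 0 := by
  obtain ⟨_, ht, _⟩ := pl_e h hz
  obtain ⟨hD, hX, hY⟩ := pl_e h hq
  obtain ⟨hC, _, _⟩ := pl_e (mir_gram h) (mir_Pl hq)
  rw [mir_eX, mir_eY, mir_eW] at hC
  obtain ⟨e0, e1⟩ := Qv_n h z.2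
  have hs := sqrt2_lb
  have hs2 := s2s
  have hW : √2 * eW a z.2 = -(√2 * eV a z.2) - 1 := by
    have := eV_eq h z.2
    linear_combination √2 * this - 1 / 2 * hs2
  set t := eX a z.1
  set X := eX a z.2
  set Y := eY a z.2
  set g := eV a z.2
  have hu : 0 ≤ -(√2 * g) := by
    have := mul_nonneg (Real.sqrt_nonneg 2) (neg_nonneg.2 hneg)
    linarith
  obtain ⟨u, hu'⟩ : ∃ u, u = -(√2 * g) := ⟨_, rfl⟩
  obtain ⟨n, hn⟩ : ∃ n, n = 1 / 4 - Y ^ 2 - X ^ 2 + u - u ^ 2 / 2 := ⟨_, rfl⟩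
  rw [← hu'] at e0 e1 hu
  rw [← hn] at e0 e1
  have hA : |X| - 0.12 ≤ n := by
    rw [e0] at hQ0
    rw [e1] at hQ1
    rcases le_total 0 X with hx | hx
    · rw [abs_of_nonneg hx]
      linarith
    · rw [abs_of_nonpos hx]
      linarith
  have key := hp_real (X := X) (Y := Y) (u := u) (n := n) (t := t) (κ0 := κ0) (κ1 := κ1)
    (φ := ph22 t) (η := 0.1596) hu hX hn hY (by linarith) (by linarith) hA rfl ht h0 h0' h1 h1'
    (by norm_num) le_rfl
  have hφ := ph22_nonneg t ht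
  have hr := (rh_pos a z).le
  -- the height term
  have kg : 0.2257 * -g ≤ 0.1596 * u := by
    rw [hu']
    nlinarith
  have k1 : lam * -g ≤ (κ0 + κ1) * (0.1596 * u) := by
    calc lam * -g ≤ 0.2257 * (κ0 + κ1) * -g :=
          mul_le_mul_of_nonneg_right hl (by linarith)
      _ = (κ0 + κ1) * (0.2257 * -g) := by ring
      _ ≤ _ := mul_le_mul_of_nonneg_left kg (by linarith)
  have k2 := mul_le_mul_of_nonneg_left k1 hφ
  have w0 : wt a false z.1 = (1 / 2 + 7 * t / 16) * rh a z := by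
    unfold wt rh
    simp only [Bool.false_eq_true, if_false]
    rw [div_eq_mul_inv]
  have w1 : wt a true z.1 = (1 / 2 - 7 * t / 16) * rh a z := by
    unfold wt rh
    simp only [if_true]
    rw [div_eq_mul_inv]
    congr 1
  have d : dp ph22 a z = ph22 t * rh a z := rfl
  rw [w0, w1, d, e0, e1]
  have fin : ((1 / 2 + 7 * t / 16) * rh a z - κ0 / 2 * (ph22 t * rh a z)) * (-n - X) +
      ((1 / 2 - 7 * t / 16) * rh a z - κ1 / 2 * (ph22 t * rh a z)) * (-n + X) -
      lam * (ph22 t * rh a z * g) =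
      rh a z * (-n - 7 * t / 8 * X + κ0 * ph22 t * (n + X) / 2 + κ1 * ph22 t * (n - X) / 2 +
        ph22 t * (lam * -g)) := by ring
  rw [fin]
  apply mul_nonpos_of_nonneg_of_nonpos hr
  linarith

end pt

section int
variable {φ : ℝ → ℝ} {a : Fin 4 → E3} {K : Set E3} {σ : Measure (E3 × E3)} [IsFiniteMeasure σ]

omit [IsFiniteMeasure σ] in
theorem p0_nonneg (h0 : ∀ x, |x| ≤ 1 / 2 → 0 ≤ φ x) (h : Gram4 (al a)) (hp : ∀ x ∈ K, Pl a x)
    (hσ : ∀ᵐ z ∂σ, z.1 ∈ K ∧ z.2 ∈ K) : 0 ≤ p0 φ σ a := by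
  unfold p0
  apply integral_nonneg_of_ae
  filter_upwards [ae_restrict_of_ae hσ] with z hz
  exact dp_nonneg h0 h (hp _ hz.1)

/-- the height moment is at most the height times the mass -/
theorem pH_le (hφ : Continuous φ) (h0 : ∀ x, |x| ≤ 1 / 2 → 0 ≤ φ x) (h : Gram4 (al a))
    (hK : IsCompact K) (hp : ∀ x ∈ K, Pl a x) (hσ : ∀ᵐ z ∂σ, z.1 ∈ K ∧ z.2 ∈ K) {H : ℝ}
    (hH : ∀ q ∈ K, eV a q ≤ H) : pH φ σ a ≤ H * p0 φ σ a := by
  unfold pH p0
  rw [← integral_const_mul]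
  refine integral_mono_ae (int_cont hK hσ ((dp_cont hφ a).mul
    ((eV_cont a).comp continuous_snd))).integrableOn
    (int_cont hK hσ (continuous_const.mul (dp_cont hφ a))).integrableOn ?_
  filter_upwards [ae_restrict_of_ae hσ] with z hz
  have k := mul_le_mul_of_nonneg_left (hH _ hz.2) (dp_nonneg h0 h (hp _ hz.1))
  show dp φ a z * eV a z.2 ≤ H * dp φ a z
  linarith

/-- the four numbers are nonnegative -/
theorem mp_nonneg (hφ : Continuous φ) (h0 : ∀ x, |x| ≤ 1 / 2 → 0 ≤ φ x)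
    (ha : ∀ i j, i ≠ j → dist (a i) (a j) = 1) (hK : IsCompact K) (hp : ∀ x ∈ K, Pl a x)
    (hσ : ∀ᵐ z ∂σ, z.1 ∈ K ∧ z.2 ∈ K) (m : Fin 3) (e i : Bool) : 0 ≤ mp φ σ a m e i := by
  set b := ap a m (!e) with hb
  have hg : Gram4 (al b) := gram_of_dist (hap ha m (!e))
  have hpb : ∀ x ∈ K, Pl b x := fun x hx => Pl_perm (pr m (!e)) (hp x hx)
  have i1 : Integrable (fun z => dp φ b z) σ := int_cont hK hσ (dp_cont hφ b)
  have i2 : Integrable (fun z => dp φ b z * eY b z.2) σ :=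
    int_cont hK hσ ((dp_cont hφ b).mul ((eY_cont b).comp continuous_snd))
  have key : ∀ s : ℝ, |s| ≤ 1 → 0 ≤ p0 φ σ b / 2 + s * pY φ σ b := by
    intro s hs
    have e1 : p0 φ σ b / 2 + s * pY φ σ b =
        ∫ z in Zp b 2 3, (dp φ b z * (1 / 2) + s * (dp φ b z * eY b z.2)) ∂σ := by
      unfold p0 pY
      rw [integral_add (i1.mul_const _).integrableOn (i2.const_mul _).integrableOn,
        integral_mul_const, integral_const_mul]
      ring
    rw [e1]
    apply integral_nonneg_of_ae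
    filter_upwards [ae_restrict_of_ae hσ] with z hz
    obtain ⟨_, _, hy⟩ := pl_e hg (hpb _ hz.2)
    have hd := dp_nonneg h0 hg (z := z) (hpb _ hz.1)
    have hsy : |s * eY b z.2| ≤ 1 / 2 := by
      rw [abs_mul]
      calc |s| * |eY b z.2| ≤ 1 * (1 / 2) := mul_le_mul hs hy (abs_nonneg _) (by norm_num)
        _ = 1 / 2 := by ring
    have h2 := (abs_le.1 hsy).1
    show 0 ≤ dp φ b z * (1 / 2) + s * (dp φ b z * eY b z.2)
    have : dp φ b z * (1 / 2) + s * (dp φ b z * eY b z.2) =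
        dp φ b z * (1 / 2 + s * eY b z.2) := by ring
    rw [this]
    exact mul_nonneg hd (by linarith)
  unfold mp
  rw [← hb]
  cases i
  · have := key 1 (by norm_num)
    simpa using this
  · have := key (-1) (by norm_num)
    simpa using this

/-- the two numbers of a cell add up to the mass of the other cell -/
theorem mp_add (φ : ℝ → ℝ) (σ : Measure (E3 × E3)) (a : Fin 4 → E3) (m : Fin 3) (e : Bool) :
    mp φ σ a m e false + mp φ σ a m e true = p0 φ σ (ap a m (!e)) := by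
  unfold mp
  simp only [Bool.false_eq_true, if_false, if_true]
  ring

/-- one cell: the reduced signed level and the height term -/
theorem cell_h (ha : ∀ i j, i ≠ j → dist (a i) (a j) = 1) (hK : IsCompact K)
    (hp : ∀ x ∈ K, Pl a x) (hσ : ∀ᵐ z ∂σ, z.1 ∈ K ∧ z.2 ∈ K)
    (hQ : ∀ i, ∀ q ∈ K, Qv a i q ≤ 0.12) (m : Fin 3) (e : Bool) {κ : Bool → ℝ}
    (hκ0 : ∀ i, 0 ≤ κ i) (hκ1 : ∀ i, κ i ≤ 1 / 2) {lam : ℝ} (hl0 : 0 ≤ lam)
    (hl : lam ≤ 0.2257 * (κ false + κ true)) {L : E3 × E3 → ℝ}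
    (hLi : IntegrableOn L (EE a m e) σ) (hL0 : ∀ z, Pl a z.1 → 0 ≤ L z)
    (hL : ∀ z, Pl a z.1 → Pl a z.2 →
      ∑ i, (wt (ap a m e) i z.1 - κ i / 2 * dp ph22 (ap a m e) z) * Qv a (vx m e i) z.2 ≤ L z) :
    (∑ i, gP ph22 σ a (κ i) m e i) - lam * pH ph22 σ (ap a m e) ≤ ∫ z in EE a m e, L z ∂σ := by
  have hg : Gram4 (al (ap a m e)) := gram_of_dist (hap ha m e)
  have c1 : ∀ i, Continuous fun z : E3 × E3 =>
      (wt (ap a m e) i z.1 - κ i / 2 * dp ph22 (ap a m e) z) * Qv a (vx m e i) z.2 := fun i =>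
    (((wt_cont (ap a m e) i).comp continuous_fst).sub
      (continuous_const.mul (dp_cont ph22_cont (ap a m e)))).mul
      ((Qv_cont a (vx m e i)).comp continuous_snd)
  have c2 : Continuous fun z : E3 × E3 => lam * (dp ph22 (ap a m e) z * eV (ap a m e) z.2) :=
    continuous_const.mul ((dp_cont ph22_cont (ap a m e)).mul
      ((eV_cont (ap a m e)).comp continuous_snd))
  have e1 : (∑ i, gP ph22 σ a (κ i) m e i) - lam * pH ph22 σ (ap a m e) =
      ∫ z in EE a m e, ((∑ i, (wt (ap a m e) i z.1 - κ i / 2 * dp ph22 (ap a m e) z) *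
        Qv a (vx m e i) z.2) - lam * (dp ph22 (ap a m e) z * eV (ap a m e) z.2)) ∂σ := by
    have hE : EE a m e = Zp (ap a m e) 2 3 := rfl
    unfold gP pH
    rw [integral_sub (integrable_finsetSum _ fun i _ =>
        (int_cont hK hσ (c1 i)).integrableOn) (int_cont hK hσ c2).integrableOn,
      integral_finsetSum _ fun i _ => (int_cont hK hσ (c1 i)).integrableOn,
      integral_const_mul, ← hE]
  rw [e1]
  refine integral_mono_ae (Integrable.sub (integrable_finsetSum _ fun i _ =>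
    (int_cont hK hσ (c1 i)).integrableOn) (int_cont hK hσ c2).integrableOn) hLi ?_
  filter_upwards [ae_restrict_of_ae hσ] with z hz
  have hz1 := hp _ hz.1
  have hz2 := hp _ hz.2
  have hz1' : Pl (ap a m e) z.1 := Pl_perm (pr m e) hz1
  have hz2' : Pl (ap a m e) z.2 := Pl_perm (pr m e) hz2
  rcases le_total 0 (eV (ap a m e) z.2) with hv | hv
  · have k1 := hL z hz1 hz2
    have k2 : 0 ≤ lam * (dp ph22 (ap a m e) z * eV (ap a m e) z.2) :=
      mul_nonneg hl0 (mul_nonneg (dp_nonneg ph22_nonneg hg hz1') hv)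
    linarith
  · have q0 : Qv (ap a m e) 0 z.2 ≤ 0.12 := by
      rw [(Qv_ap a m e).1]
      exact hQ _ _ hz.2
    have q1 : Qv (ap a m e) 1 z.2 ≤ 0.12 := by
      rw [(Qv_ap a m e).2]
      exact hQ _ _ hz.2
    have k := hpt hg hz1' hz2' q0 q1 (hκ0 false) (hκ1 false) (hκ0 true) (hκ1 true) hl hv
    rw [(Qv_ap a m e).1, (Qv_ap a m e).2] at k
    have k3 := hL0 z hz1
    simp only [Fintype.sum_bool]
    linarith

/-- **the pair of opposite edges, `κ ≤ 1/2`, no height term** -/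
theorem te_pair_h (hP : PM K σ) (ha : ∀ i j, i ≠ j → dist (a i) (a j) = 1)
    (hd : ∀ x ∈ K, ∀ y ∈ K, ‖x - y‖ ≤ 1) (hp : ∀ x ∈ K, Pl a x)
    (hQ : ∀ i, ∀ q ∈ K, Qv a i q ≤ 0.12) (m : Fin 3)
    {B : Bool → OrthonormalBasis (Fin 3) ℝ E3} (hB : ∀ e, Fr (ap a m e) (B e)) {M : ℝ}
    (hM : 0 < M) (hk : ∀ e i, 2 * mp ph22 σ a m e i ≤ M) {L : Bool → E3 × E3 → ℝ}
    (hLi : ∀ e, IntegrableOn (L e) (EE a m e) σ) (hL0 : ∀ e z, Pl a z.1 → 0 ≤ L e z)
    (hL : ∀ e z, Pl a z.1 → Pl a z.2 →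
      ∑ i, (wt (ap a m e) i z.1 - mp ph22 σ a m e i / M / 2 * dp ph22 (ap a m e) z) *
        Qv a (vx m e i) z.2 ≤ L e z) :
    -((∫ z in EE a m false, L false z ∂σ) + ∫ z in EE a m true, L true z ∂σ) ≤
      TE (B false) (cen a) σ + TE (B true) (cen a) σ := by
  have key := te_pairp ph22_cont ph22_nonneg hP ha hd hp m hB hM
  have hmn := mp_nonneg ph22_cont ph22_nonneg ha hP.cpt hp hP.mem m
  have k0 : ∀ e i, 0 ≤ mp ph22 σ a m e i / M := fun e i => div_nonneg (hmn e i) hM.le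
  have k1 : ∀ e i, mp ph22 σ a m e i / M ≤ 1 / 2 := by
    intro e i
    rw [div_le_iff₀ hM]
    have := hk e i
    linarith
  have hgr : ∀ e, Gram4 (al (ap a m e)) := fun e => gram_of_dist (hap ha m e)
  have hple : ∀ e, ∀ x ∈ K, Pl (ap a m e) x := fun e x hx => Pl_perm (pr m e) (hp x hx)
  -- the height moment of the other cell
  have kl : ∀ e, pH ph22 σ (ap a m (!e)) / M ≤
      0.2257 * (mp ph22 σ a m e false / M + mp ph22 σ a m e true / M) := by
    intro e
    have hH : ∀ q ∈ K, eV (ap a m (!e)) q ≤ 0.2257 := by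
      intro q hq
      apply eV_le (hgr (!e))
      · rw [(Qv_ap a m (!e)).1]
        exact hQ _ _ hq
      · rw [(Qv_ap a m (!e)).2]
        exact hQ _ _ hq
    have h1 := pH_le ph22_cont ph22_nonneg (hgr (!e)) hP.cpt (hple (!e)) hP.mem hH
    rw [← mp_add ph22 σ a m e] at h1
    rw [← add_div, ← mul_div_assoc]
    exact div_le_div_of_nonneg_right h1 hM.le
  have kn : ∀ e, 0 ≤ 0.2257 * (mp ph22 σ a m e false / M + mp ph22 σ a m e true / M) := by
    intro e
    have := k0 e false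
    have := k0 e true
    positivity
  have c0 : ∀ e, ∑ i, gP ph22 σ a (mp ph22 σ a m e i / M) m e i ≤ ∫ z in EE a m e, L e z ∂σ := by
    intro e
    have := cell_h ha hP.cpt hp hP.mem hQ m e (κ := fun i => mp ph22 σ a m e i / M) (k0 e) (k1 e)
      (lam := 0) le_rfl (kn e) (hLi e) (hL0 e) (hL e)
    simpa using this
  have c1 : ∀ e, 0 ≤ pH ph22 σ (ap a m (!e)) →
      (∑ i, gP ph22 σ a (mp ph22 σ a m e i / M) m e i) -
        pH ph22 σ (ap a m (!e)) / M * pH ph22 σ (ap a m e) ≤ ∫ z in EE a m e, L e z ∂σ := by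
    intro e he
    exact cell_h ha hP.cpt hp hP.mem hQ m e (κ := fun i => mp ph22 σ a m e i / M) (k0 e) (k1 e)
      (div_nonneg he hM.le) (kl e) (hLi e) (hL0 e) (hL e)
  have t0 := c0 false
  have t1 := c0 true
  rw [Fintype.sum_bool] at key
  rcases le_total 0 (pH ph22 σ (ap a m false)) with hA | hA
  · -- the height moment of the cell `false` is nonnegative
    have t2 := c1 true hA
    have e2 : pH ph22 σ (ap a m (!true)) / M * pH ph22 σ (ap a m true) =
        pH ph22 σ (ap a m false) * pH ph22 σ (ap a m true) / M := by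
      show pH ph22 σ (ap a m false) / M * pH ph22 σ (ap a m true) = _
      ring
    rw [e2] at t2
    linarith
  · rcases le_total 0 (pH ph22 σ (ap a m true)) with hB' | hB'
    · have t2 := c1 false hB'
      have e2 : pH ph22 σ (ap a m (!false)) / M * pH ph22 σ (ap a m false) =
          pH ph22 σ (ap a m false) * pH ph22 σ (ap a m true) / M := by
        show pH ph22 σ (ap a m true) / M * pH ph22 σ (ap a m false) = _
        ring
      rw [e2] at t2
      linarith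
    · have hpr : 0 ≤ pH ph22 σ (ap a m false) * pH ph22 σ (ap a m true) / M :=
        div_nonneg (mul_nonneg_of_nonpos_of_nonpos hA hB') hM.le
      linarith

end int

end Helper49.Cpl
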