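import Pool.Agent.Helper49.MEI.Cpl4
import Pool.Agent.Helper95.MEI.Hc

/-!
# Project MEI (M2), TEAM TC: signed coupling of a pair without height term, general profile

`wm e i` = the number `mp` of the vertex, increased by `√2 (height moment of the other cell)⁺` if
the product of the two height moments is negative. `te_pair_w`: for every `M > 0` the two excess
integrals are at least minus the four signed levels of `wt - (wm/M) φ/(8 D)`.
`gB_split`, `pB_eq2`, `pB_eq3`: the moments of the reduced density.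
-/

set_option autoImplicit false

namespace Helper49.Cpl

open Set Metric MeasureTheory Helper80.CW Helper14.CW Helper14.MEI2
open Helper93.MEI Helper37.MEI Helper41.MEI Helper78.MEI
open Helper22.Sgn (gL TE_sgn)
open Pool.Agent.Helper8.MEI (DD DD_pos DD_ge)
open Pool.Agent.Helper73.MEI (PM TE TE_exc pf pr pr_apply pf_bij)
open Pool.Agent.Helper95.MEI.Fub (Zp exc exc_cont eX_cont eY_cont eW_cont Qv_cont pp_cont
  DDe_cont int_cont Zp_meas mir mir_gram mir_eX mir_eY mir_eW mir_eV mir_Zp mir_perm mir_Pl)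
open Helper95.MEI.Hc (circ)
open scoped RealInnerProductSpace Real

section defs
variable (φ : ℝ → ℝ) (σ : Measure (E3 × E3)) (a : Fin 4 → E3)

/-- the increment of the numbers of a cell -/
noncomputable def xm (m : Fin 3) (e : Bool) : ℝ :=
  if 0 ≤ pH φ σ (ap a m false) * pH φ σ (ap a m true) then 0 else
    √2 * pp (pH φ σ (ap a m (!e)))

/-- the four numbers of the coupling without height term -/
noncomputable def wm (m : Fin 3) (e i : Bool) : ℝ := mp φ σ a m e i + xm φ σ a m e

/-- moment of the reduced density -/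
noncomputable def gB (κ : ℝ) (m : Fin 3) (e i : Bool) (k : Fin 4) : ℝ :=
  ∫ z in EE a m e, (wt (ap a m e) i z.1 - κ / 2 * dp φ (ap a m e) z) * bar (ap a m e) k z.2 ∂σ

/-- moment of the coupling density -/
noncomputable def pB (k : Fin 4) : ℝ := ∫ z in Zp a 2 3, dp φ a z * bar a k z.2 ∂σ

theorem xm_nonneg (m : Fin 3) (e : Bool) : 0 ≤ xm φ σ a m e := by
  unfold xm
  split_ifs
  · exact le_rfl
  · exact mul_nonneg (Real.sqrt_nonneg 2) (pp_nonneg _)

theorem xm_le (m : Fin 3) (e : Bool) : xm φ σ a m e ≤ √2 * pp (pH φ σ (ap a m (!e))) := by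
  unfold xm
  split_ifs
  · exact mul_nonneg (Real.sqrt_nonneg 2) (pp_nonneg _)
  · exact le_rfl

theorem mp_le_wm (m : Fin 3) (e i : Bool) : mp φ σ a m e i ≤ wm φ σ a m e i := by
  have := xm_nonneg φ σ a m e
  unfold wm
  linarith

theorem wm_le (m : Fin 3) (e i : Bool) :
    wm φ σ a m e i ≤ mp φ σ a m e i + √2 * pp (pH φ σ (ap a m (!e))) := by
  have := xm_le φ σ a m e
  unfold wm
  linarith

/-- the two numbers of a cell add up to the mass of the other cell (at least) -/
theorem wm_add_ge (m : Fin 3) (e : Bool) :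
    p0 φ σ (ap a m (!e)) ≤ wm φ σ a m e false + wm φ σ a m e true := by
  have h1 := mp_le_wm φ σ a m e false
  have h2 := mp_le_wm φ σ a m e true
  have h3 := mp_add φ σ a m e
  linarith

end defs

section int
variable {φ : ℝ → ℝ} {a : Fin 4 → E3} {K : Set E3} {σ : Measure (E3 × E3)} [IsFiniteMeasure σ]

/-- levels and height moment of a cell -/
theorem pQ_pH (hφ : Continuous φ) (h0 : ∀ x, |x| ≤ 1 / 2 → 0 ≤ φ x) (h : Gram4 (al a))
    (hK : IsCompact K) (hp : ∀ x ∈ K, Pl a x)
    (hσ : ∀ᵐ z ∂σ, z.1 ∈ K ∧ z.2 ∈ K) (hS : ∀ j, ∀ q ∈ K, Qv a j q ≤ 0.12) :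
    pQ φ σ a 0 + pQ φ σ a 1 ≤ √2 * pH φ σ a := by
  have c : ∀ f : E3 → ℝ, Continuous f → Integrable (fun z : E3 × E3 => dp φ a z * f z.2) σ :=
    fun f hf => int_cont hK hσ ((dp_cont hφ a).mul (hf.comp continuous_snd))
  have hV : Continuous (eV a) := eV_cont a
  unfold pQ pH
  rw [← integral_add (c _ (Qv_cont a 0)).integrableOn (c _ (Qv_cont a 1)).integrableOn,
    ← integral_const_mul]
  refine integral_mono_ae ((c _ (Qv_cont a 0)).integrableOn.add (c _ (Qv_cont a 1)).integrableOn)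
    ((c _ hV).integrableOn.const_mul _) ?_
  filter_upwards [ae_restrict_of_ae hσ] with z hz
  have h1 := circ h (hp _ hz.2) fun j => hS j _ hz.2
  have h2 := dp_nonneg h0 h (hp _ hz.1)
  have h3 := mul_le_mul_of_nonneg_left h1 h2
  show dp φ a z * Qv a 0 z.2 + dp φ a z * Qv a 1 z.2 ≤ √2 * (dp φ a z * eV a z.2)
  nlinarith

/-- **the signed coupling without height term** -/
theorem te_pair_w (hφ : Continuous φ) (h0 : ∀ x, |x| ≤ 1 / 2 → 0 ≤ φ x)
    (hP : PM K σ) (ha : ∀ i j, i ≠ j → dist (a i) (a j) = 1)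
    (hd : ∀ x ∈ K, ∀ y ∈ K, ‖x - y‖ ≤ 1) (hp : ∀ x ∈ K, Pl a x)
    (hS : ∀ j, ∀ q ∈ K, Qv a j q ≤ 0.12) (m : Fin 3)
    {B : Bool → OrthonormalBasis (Fin 3) ℝ E3} (hB : ∀ e, Fr (ap a m e) (B e)) {M : ℝ}
    (hM : 0 < M) :
    -(∑ e, ∑ i, gP φ σ a (wm φ σ a m e i / M) m e i) ≤
    TE (B false) (cen a) σ + TE (B true) (cen a) σ := by
  have hg : ∀ e, Gram4 (al (ap a m e)) := fun e => gram_of_dist (hap ha m e)
  have hpl : ∀ e, ∀ x ∈ K, Pl (ap a m e) x := fun e x hx => Pl_perm (pr m e) (hp x hx)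
  have key := cplp hφ hφ h0 h0 (hg false) hP.cpt hd (hpl false) hP.mem
  rw [← ap_mir a m] at key
  have g : ∀ e, pQ φ σ (ap a m e) 0 + pQ φ σ (ap a m e) 1 ≤ √2 * pH φ σ (ap a m e) := fun e =>
    pQ_pH hφ h0 (hg e) hP.cpt (hpl e) hP.mem fun j q hq => hS (pf m e j) q hq
  have hs2 := s2s
  have hs0 := Real.sqrt_nonneg 2
  -- the height product
  have e2 : xm φ σ a m false * (pQ φ σ (ap a m false) 0 + pQ φ σ (ap a m false) 1) +
      xm φ σ a m true * (pQ φ σ (ap a m true) 0 + pQ φ σ (ap a m true) 1) ≤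
      2 * (pH φ σ (ap a m false) * pH φ σ (ap a m true)) := by
    unfold xm
    simp only [Bool.not_false, Bool.not_true]
    split_ifs with hc
    · linarith
    · push Not at hc
      have g0 := g false
      have g1 := g true
      set HA := pH φ σ (ap a m false)
      set HB := pH φ σ (ap a m true)
      rcases lt_or_ge 0 HB with ht | ht
      · have hf : HA ≤ 0 := by nlinarith
        have e3 : pp HB = HB := max_eq_left ht.le
        have e4 : pp HA = 0 := max_eq_right hf
        rw [e3, e4]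
        have k := mul_le_mul_of_nonneg_left g0 (mul_nonneg hs0 ht.le)
        have k2 : √2 * HB * (√2 * HA) = 2 * (HA * HB) := by
          linear_combination HA * HB * hs2
        rw [k2] at k
        linarith
      · have hf : 0 ≤ HA := by nlinarith
        have e3 : pp HB = 0 := max_eq_right ht
        have e4 : pp HA = HA := max_eq_left hf
        rw [e3, e4]
        have k := mul_le_mul_of_nonneg_left g1 (mul_nonneg hs0 hf)
        have k2 : √2 * HA * (√2 * HB) = 2 * (HA * HB) := by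
          linear_combination HA * HB * hs2
        rw [k2] at k
        linarith
  rw [TE_sgn hP ha m false (hB false), TE_sgn hP ha m true (hB true)]
  simp only [Fintype.sum_bool]
  rw [gP_eq hφ hP.cpt hP.mem, gP_eq hφ hP.cpt hP.mem, gP_eq hφ hP.cpt hP.mem,
    gP_eq hφ hP.cpt hP.mem]
  unfold wm mp
  simp only [Bool.not_false, Bool.not_true, if_true, Bool.false_eq_true, if_false]
  set A0 := p0 φ σ (ap a m false)
  set AY := pY φ σ (ap a m false)
  set B0 := p0 φ σ (ap a m true)
  set BY := pY φ σ (ap a m true)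
  set HA := pH φ σ (ap a m false)
  set HB := pH φ σ (ap a m true)
  set q0 := pQ φ σ (ap a m false) 0
  set q1 := pQ φ σ (ap a m false) 1
  set q2 := pQ φ σ (ap a m true) 0
  set q3 := pQ φ σ (ap a m true) 1
  set xA := xm φ σ a m false
  set xB := xm φ σ a m true
  have e : (B0 / 2 + BY + xA) / M / 2 * q0 + (B0 / 2 + -BY + xA) / M / 2 * q1 +
      ((A0 / 2 + AY + xB) / M / 2 * q2 + (A0 / 2 + -AY + xB) / M / 2 * q3) =
      ((B0 / 2 + BY) * q0 + (B0 / 2 - BY) * q1 + (A0 / 2 + AY) * q2 + (A0 / 2 - AY) * q3 +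
        (xA * (q0 + q1) + xB * (q2 + q3))) / M / 2 := by
    field_simp
    ring
  have k : ((B0 / 2 + BY) * q0 + (B0 / 2 - BY) * q1 + (A0 / 2 + AY) * q2 + (A0 / 2 - AY) * q3 +
        (xA * (q0 + q1) + xB * (q2 + q3))) / M / 2 ≤ 0 := by
    apply div_nonpos_of_nonpos_of_nonneg _ (by norm_num)
    apply div_nonpos_of_nonpos_of_nonneg _ hM.le
    linarith
  rw [← e] at k
  linarith

/-- moment of the reduced density: the part which stays and `(1 - κ)/2` of the coupling moment -/
theorem gB_split (hφ : Continuous φ) (hK : IsCompact K) (hσ : ∀ᵐ z ∂σ, z.1 ∈ K ∧ z.2 ∈ K)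
    (κ : ℝ) (m : Fin 3) (e i : Bool) (k : Fin 4) :
    gB φ σ a κ m e i k = gB φ σ a 1 m e i k + (1 - κ) / 2 * pB φ σ (ap a m e) k := by
  have c1 : Continuous fun z : E3 × E3 =>
      (wt (ap a m e) i z.1 - 1 / 2 * dp φ (ap a m e) z) * bar (ap a m e) k z.2 :=
    (((wt_cont (ap a m e) i).comp continuous_fst).sub
      (continuous_const.mul (dp_cont hφ (ap a m e)))).mul
      ((Pool.Agent.Helper95.MEI.Fub.bar_cont (ap a m e) k).comp continuous_snd)
  have c2 : Continuous fun z : E3 × E3 =>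
      (1 - κ) / 2 * (dp φ (ap a m e) z * bar (ap a m e) k z.2) :=
    continuous_const.mul ((dp_cont hφ (ap a m e)).mul
      ((Pool.Agent.Helper95.MEI.Fub.bar_cont (ap a m e) k).comp continuous_snd))
  have hE : EE a m e = Zp (ap a m e) 2 3 := rfl
  unfold gB pB
  rw [← integral_const_mul, ← hE,
    ← integral_add (int_cont hK hσ c1).integrableOn (int_cont hK hσ c2).integrableOn]
  congr 1
  funext z
  ring

/-- the coupling moment of the vertex `2` -/
theorem pB_eq2 (hφ : Continuous φ) (h : Gram4 (al a)) (hK : IsCompact K)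
    (hσ : ∀ᵐ z ∂σ, z.1 ∈ K ∧ z.2 ∈ K) :
    pB φ σ a 2 = p0 φ σ a / 2 + pY φ σ a + √2 / 2 * pH φ σ a := by
  have c : ∀ f : E3 → ℝ, Continuous f → Integrable (fun z : E3 × E3 => dp φ a z * f z.2) σ :=
    fun f hf => int_cont hK hσ ((dp_cont hφ a).mul (hf.comp continuous_snd))
  have i0 : Integrable (fun z : E3 × E3 => dp φ a z) σ := int_cont hK hσ (dp_cont hφ a)
  have i1 := c _ (eY_cont a)
  have i2 := c _ (eV_cont a)
  have e : pB φ σ a 2 = ∫ z in Zp a 2 3, (1 / 2 * dp φ a z + dp φ a z * eY a z.2 +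
      √2 / 2 * (dp φ a z * eV a z.2)) ∂σ := by
    unfold pB
    congr 1
    funext z
    have h1 := bar2_eq (a := a) z.2
    have h2 := eV_eq h z.2
    rw [h1, h2]
    linear_combination dp φ a z / 4 * s2s
  have i3 : Integrable (fun z : E3 × E3 => 1 / 2 * dp φ a z + dp φ a z * eY a z.2) σ :=
    (i0.const_mul _).add i1
  rw [e, integral_add i3.integrableOn (i2.const_mul _).integrableOn,
    integral_add (i0.const_mul _).integrableOn i1.integrableOn, integral_const_mul,
    integral_const_mul]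
  unfold p0 pY pH
  ring

/-- the coupling moment of the vertex `3` -/
theorem pB_eq3 (hφ : Continuous φ) (h : Gram4 (al a)) (hK : IsCompact K)
    (hσ : ∀ᵐ z ∂σ, z.1 ∈ K ∧ z.2 ∈ K) :
    pB φ σ a 3 = p0 φ σ a / 2 - pY φ σ a + √2 / 2 * pH φ σ a := by
  have c : ∀ f : E3 → ℝ, Continuous f → Integrable (fun z : E3 × E3 => dp φ a z * f z.2) σ :=
    fun f hf => int_cont hK hσ ((dp_cont hφ a).mul (hf.comp continuous_snd))
  have i0 : Integrable (fun z : E3 × E3 => dp φ a z) σ := int_cont hK hσ (dp_cont hφ a)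
  have i1 := c _ (eY_cont a)
  have i2 := c _ (eV_cont a)
  have e : pB φ σ a 3 = ∫ z in Zp a 2 3, (1 / 2 * dp φ a z - dp φ a z * eY a z.2 +
      √2 / 2 * (dp φ a z * eV a z.2)) ∂σ := by
    unfold pB
    congr 1
    funext z
    have h1 := bar3_eq (a := a) z.2
    have h2 := eV_eq h z.2
    rw [h1, h2]
    linear_combination dp φ a z / 4 * s2s
  have i3 : Integrable (fun z : E3 × E3 => 1 / 2 * dp φ a z - dp φ a z * eY a z.2) σ :=
    (i0.const_mul _).sub i1
  rw [e, integral_add i3.integrableOn (i2.const_mul _).integrableOn,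
    integral_sub (i0.const_mul _).integrableOn i1.integrableOn, integral_const_mul,
    integral_const_mul]
  unfold p0 pY pH
  ring

/-- the coupling moments of a cell by the numbers of the other cell -/
theorem pB_mp (hφ : Continuous φ) (ha : ∀ i j, i ≠ j → dist (a i) (a j) = 1) (hK : IsCompact K)
    (hσ : ∀ᵐ z ∂σ, z.1 ∈ K ∧ z.2 ∈ K) (m : Fin 3) (e i : Bool) :
    pB φ σ (ap a m e) (if i then 3 else 2) =
      mp φ σ a m (!e) i + √2 / 2 * pH φ σ (ap a m e) := by
  have hg : Gram4 (al (ap a m e)) := gram_of_dist (hap ha m e)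
  unfold mp
  rw [Bool.not_not]
  cases i
  · simp only [Bool.false_eq_true, if_false]
    rw [pB_eq2 hφ hg hK hσ]
  · simp only [if_true]
    rw [pB_eq3 hφ hg hK hσ]
    ring

end int

end Helper49.Cpl
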